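import Pool.Agent.V11293.EXU.Beta2
import Pool.Agent.V11293.EXT.Main

namespace Pool.Agent.V11293.EXU

open Finset ComplexConjugate Pool.Agent.V11293.EXT

theorem tr_mul (s t : ℂ) : tr s * tr t = tr (t + s) := by
  ext z; rw [Equiv.Perm.mul_apply, tr_apply, tr_apply, tr_apply]; ring

theorem tr_pow (t : ℂ) (n : ℕ) : tr t ^ n = tr (n * t) := by
  induction n with
  | zero => ext z; simp [tr_apply]
  | succ n ih => rw [pow_succ, ih, tr_mul]; congr 1; push_cast; ring

theorem tr_inv (t : ℂ) : (tr t)⁻¹ = tr (-t) := by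
  rw [inv_eq_iff_mul_eq_one, tr_mul]
  ext z; simp [tr_apply]

theorem tr_zpow (t : ℂ) (n : ℤ) : tr t ^ n = tr (n * t) := by
  cases n with
  | ofNat n => rw [Int.ofNat_eq_natCast, zpow_natCast, tr_pow]; simp
  | negSucc n =>
    rw [zpow_negSucc, tr_pow, tr_inv]
    congr 1
    push_cast
    ring

theorem tr_Fr {t : ℂ} (ht : t ≠ 0) : Fr (tr t) := by
  intro z _ n hn
  rw [tr_zpow, tr_apply]
  intro h
  have : (n : ℂ) * t = 0 := by linear_combination h
  rcases mul_eq_zero.1 this with h1 | h1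
  · exact hn (by exact_mod_cast h1)
  · exact ht h1

theorem tr_moved {t : ℂ} (ht : t ≠ 0) (z : ℂ) : tr t z ≠ z := by
  rw [tr_apply]; intro h; exact ht (by linear_combination h)

theorem F_inv2 {f F : ℂ → ℤ} {τ τ' : ℂ} (hτ : τ ≠ 0) (hτ' : τ' ≠ 0) (hF : ∀ z, F (z + τ) = F z)
    (hD : {z | f z ≠ F z}.Finite) {γ : Equiv.Perm ℂ} (hA : Alm f γ)
    (hγ : ∀ z, γ (z + τ') = γ z + τ) : ∀ z, F (γ z) = F z := by
  have hE : {z | F (γ z) ≠ F z}.Finite := by
    have hsub : {z | F (γ z) ≠ F z} ⊆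
        {z | f (γ z) ≠ f z} ∪ ({z | f z ≠ F z} ∪ γ.symm '' {z | f z ≠ F z}) := by
      intro z hz
      by_contra hcon
      simp only [Set.mem_union, not_or] at hcon
      obtain ⟨h1, h2, h3⟩ := hcon
      simp only [Set.mem_setOf_eq, not_not] at h1 h2
      apply hz
      have h4 : f (γ z) = F (γ z) := by
        by_contra h5
        exact h3 ⟨γ z, h5, by simp⟩
      rw [← h4, h1, h2]
    exact (Set.Finite.union hA (hD.union (hD.image _))).subset hsub
  have hFn : ∀ (n : ℕ) z, F (z + n * τ) = F z := by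
    intro n z
    induction n with
    | zero => simp
    | succ n ih =>
      rw [← ih, ← hF (z + n * τ)]
      congr 1; push_cast; ring
  have hγn : ∀ (n : ℕ) z, γ (z + n * τ') = γ z + n * τ := by
    intro n z
    induction n with
    | zero => simp
    | succ n ih =>
      have : z + ((n + 1 : ℕ) : ℂ) * τ' = (z + n * τ') + τ' := by push_cast; ring
      rw [this, hγ, ih]; push_cast; ring
  intro z
  obtain ⟨n, hn⟩ := (ev hE hτ z).exists
  obtain ⟨m, hm1, hm2⟩ := ((ev hE hτ' z).and (ev hE hτ' (z + n * τ))).exists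
  simp only [Set.mem_setOf_eq, not_not] at hn hm1 hm2
  rw [hγn, hFn] at hm1 hm2
  rw [hm1, ← hFn n z, ← hn, hm2, ← hFn n (z + m * τ')]
  congr 1; ring

theorem unit_mul_conj {a : ℂ} (ha : ‖a‖ = 1) : a * conj a = 1 := by
  rw [Complex.mul_conj, Complex.normSq_eq_norm_sq, ha]; simp

theorem alpha1 {f : ℂ → ℤ} {W : Finset ℂ} {g : Finset ℂ → Equiv.Perm ℂ} (H : Sys f W g)
    (hadm : ∀ κ, Ind κ → ∃ w ∈ W, κ w ≠ w) (hW : 15 ≤ W.card) {τ : ℂ} (hτ : τ ≠ 0)
    (hA : Alm f (tr τ)) (hU : ∀ z, z ∉ U f (tr τ)) : False := by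
  have hF := tr_Fr hτ
  have hC : Cube f (L f (tr τ)) W g := by
    have hfin : {z | f z ≠ L f (tr τ) z}.Finite := by
      refine (fin_diff hA hF).subset ?_
      intro z hz
      exact ⟨hU z, hz⟩
    have hper : ∀ z, L f (tr τ) (z + τ) = L f (tr τ) z := by
      intro z
      have := L_conj hA hF hA hF hA (g := tr τ) rfl (z := z) (fun h => h)
      rwa [tr_apply] at this
    refine ⟨H.iso, H.ne, H.sym, fun X hX => ?_, hfin⟩
    rcases H.iso X hX with ⟨a, t, ha, hg⟩ | ⟨a, t, ha, hg⟩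
    · have haa := unit_mul_conj ha
      have hca : conj a ≠ 0 := by
        intro h; rw [h, mul_zero] at haa; exact zero_ne_one haa
      refine F_inv2 hτ (τ' := conj a * τ) (mul_ne_zero hca hτ) hper hfin
        (Alm.of_sym (H.sym X hX)) ?_
      intro z
      rw [hg, hg]
      linear_combination τ * haa
    · have haa := unit_mul_conj ha
      have ha0 : a ≠ 0 := by rintro rfl; simp at ha
      refine F_inv2 hτ (τ' := a * conj τ) (mul_ne_zero ha0 ((map_ne_zero _).2 hτ)) hper hfin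
        (Alm.of_sym (H.sym X hX)) ?_
      intro z
      rw [hg, hg, map_add, map_mul, Complex.conj_conj]
      linear_combination τ * haa
  obtain ⟨κ, hκ, hκW, -⟩ := PE hC hW
  obtain ⟨w, hw, hne⟩ := hadm κ hκ
  exact hne (hκW w hw)

theorem exactU {b : ℂ → ℤ} {k : Equiv.Perm ℂ} (hk : ∀ z, b (k z) = b z) (hF : Fr k) (z : ℂ) :
    z ∉ U b k := by
  have hA : Alm b k := by
    have : {z | b (k z) ≠ b z} = ∅ := by ext z; simp [hk]
    unfold Alm; rw [this]; exact Set.finite_empty
  have h1 : ∀ n : ℕ, b ((k ^ n) z) = b z := by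
    intro n
    induction n with
    | zero => simp
    | succ n ih => rw [pow_succ', Equiv.Perm.mul_apply, hk, ih]
  have h2 : ∀ n : ℕ, b ((k⁻¹ ^ n) z) = b z := by
    intro n
    induction n with
    | zero => simp
    | succ n ih =>
      rw [← ih, ← hk ((k⁻¹ ^ (n + 1)) z), pow_succ', Equiv.Perm.mul_apply, aiv]
  intro h
  apply h
  rw [L_uniq hA hF (Filter.Eventually.of_forall h1),
    L_uniq hA.inv hF.inv (Filter.Eventually.of_forall h2)]

theorem Iso.inv' {g : Equiv.Perm ℂ} (h : Iso g) : Iso g⁻¹ := by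
  rcases h with ⟨a, t, ha, hg⟩ | ⟨a, t, ha, hg⟩
  · have haa := unit_mul_conj ha
    left
    refine ⟨conj a, -conj a * t, by rw [Complex.norm_conj, ha], fun z => ?_⟩
    rw [Equiv.Perm.inv_eq_iff_eq, hg]
    linear_combination (t - z) * haa
  · have haa := unit_mul_conj ha
    right
    refine ⟨a, -a * conj t, ha, fun z => ?_⟩
    rw [Equiv.Perm.inv_eq_iff_eq, hg]
    simp only [map_add, map_mul, map_neg, Complex.conj_conj]
    linear_combination (t - z) * haa

theorem Iso.mul' {g h : Equiv.Perm ℂ} (hg : Iso g) (hh : Iso h) : Iso (g * h) := by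
  rcases hg with ⟨a, t, ha, hg⟩ | ⟨a, t, ha, hg⟩ <;> rcases hh with ⟨b, s, hb, hh⟩ | ⟨b, s, hb, hh⟩
  · left
    exact ⟨a * b, a * s + t, by rw [norm_mul, ha, hb, one_mul], fun z => by
      rw [Equiv.Perm.mul_apply, hg, hh]; ring⟩
  · right
    exact ⟨a * b, a * s + t, by rw [norm_mul, ha, hb, one_mul], fun z => by
      rw [Equiv.Perm.mul_apply, hg, hh]; ring⟩
  · right
    exact ⟨a * conj b, a * conj s + t, by rw [norm_mul, ha, Complex.norm_conj, hb, one_mul],
      fun z => by rw [Equiv.Perm.mul_apply, hg, hh]; simp only [map_add, map_mul]; ring⟩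
  · left
    exact ⟨a * conj b, a * conj s + t, by rw [norm_mul, ha, Complex.norm_conj, hb, one_mul],
      fun z => by
        rw [Equiv.Perm.mul_apply, hg, hh]; simp only [map_add, map_mul, Complex.conj_conj]; ring⟩

theorem alpha2 {f : ℂ → ℤ} {W : Finset ℂ} {g : Finset ℂ → Equiv.Perm ℂ} (H : Sys f W g)
    (hadm : ∀ κ, Ind κ → ∃ w ∈ W, κ w ≠ w) (hW : 19 ≤ W.card)
    (NB : ∀ τ, τ ≠ 0 → Alm f (tr τ) → ∃ z, z ∈ U f (tr τ)) {τ : ℂ} (hτ : τ ≠ 0)
    (hA : Alm f (tr τ)) : False := by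
  have hF := tr_Fr hτ
  obtain ⟨z₀, hz₀⟩ := NB τ hτ hA
  set k := tr τ with hk
  have hkap : ∀ z, k z = z + τ := fun z => rfl
  have hkinv : ∀ z, k⁻¹ z = z - τ := by
    intro z; rw [Equiv.Perm.inv_eq_iff_eq, hkap]; ring
  have hmv : ∀ z, k z ≠ z := tr_moved hτ
  have Tdep : ∀ t, Alm f (tr t) → ∃ (m : ℕ) (n : ℤ), 0 < m ∧ (m : ℂ) * t = n * τ := by
    intro t hAt
    obtain ⟨m, n, hm, h⟩ := DEP hA hF hAt (by
      show k * tr t = tr t * k
      rw [hk, tr_mul, tr_mul, add_comm]) (fun z hz => absurd hz (hmv z)) hz₀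
    refine ⟨m, n, hm, ?_⟩
    rw [tr_pow, hk, tr_zpow, tr_apply, tr_apply] at h
    linear_combination h
  -- rational multiples of tau are fixed by linear parts fixing tau
  have Tfix : ∀ a t, a * conj τ = τ → Alm f (tr t) → a * conj t = t := by
    intro a t ha hAt
    obtain ⟨m, n, hm, h⟩ := Tdep t hAt
    have hm' : (m : ℂ) ≠ 0 := by exact_mod_cast (Nat.pos_iff_ne_zero.1 hm)
    apply mul_left_cancel₀ hm'
    have h2 := congrArg conj h
    simp only [map_mul, map_natCast, map_intCast] at h2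
    linear_combination a * h2 + (n : ℂ) * ha - h
  have hτc : conj τ ≠ 0 := (map_ne_zero _).2 hτ
  -- shape of isometries in A
  have shape : ∀ γ, Iso γ → Alm f γ → (∃ t, ∀ z, γ z = z + t) ∨ (∃ t, ∀ z, γ z = -z + t) ∨
      (∃ a t, ‖a‖ = 1 ∧ (∀ z, γ z = a * conj z + t) ∧ a * conj τ = τ) ∨
      (∃ a t, ‖a‖ = 1 ∧ (∀ z, γ z = a * conj z + t) ∧ a * conj τ = -τ) := by
    intro γ hI hAγ
    rcases hI with ⟨a, t, ha, hγ⟩ | ⟨a, t, ha, hγ⟩
    · have hT : Alm f (tr (a * τ)) := by
        have : tr (a * τ) = γ * k * γ⁻¹ := by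
          rw [eq_mul_inv_iff_mul_eq]
          ext z
          rw [Equiv.Perm.mul_apply, Equiv.Perm.mul_apply, tr_apply, hγ, hγ, hkap]; ring
        rw [this]
        exact (hAγ.mul hA).mul hAγ.inv
      obtain ⟨m, n, hm, h⟩ := Tdep _ hT
      rcases pm_one hτ ha (m := m) (n := n) (by exact_mod_cast (Nat.pos_iff_ne_zero.1 hm))
        (by exact_mod_cast h) with h1 | h1
      · left; exact ⟨t, fun z => by rw [hγ, h1, one_mul]⟩
      · right; left; exact ⟨t, fun z => by rw [hγ, h1]; ring⟩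
    · have hT : Alm f (tr (a * conj τ)) := by
        have : tr (a * conj τ) = γ * k * γ⁻¹ := by
          rw [eq_mul_inv_iff_mul_eq]
          ext z
          rw [Equiv.Perm.mul_apply, Equiv.Perm.mul_apply, tr_apply, hγ, hγ, hkap, map_add]; ring
        rw [this]
        exact (hAγ.mul hA).mul hAγ.inv
      obtain ⟨m, n, hm, h⟩ := Tdep _ hT
      have hn : ‖a * conj τ / τ‖ = 1 := by
        rw [norm_div, norm_mul, ha, Complex.norm_conj, one_mul, div_self (norm_ne_zero_iff.2 hτ)]
      have e : a * conj τ / τ * τ = a * conj τ := by field_simp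
      rcases pm_one hτ hn (m := m) (n := n) (by exact_mod_cast (Nat.pos_iff_ne_zero.1 hm))
        (by rw [e]; exact_mod_cast h) with h1 | h1
      · right; right; left
        exact ⟨a, t, ha, hγ, by rw [← e, h1, one_mul]⟩
      · right; right; right
        exact ⟨a, t, ha, hγ, by rw [← e, h1]; ring⟩
  have hc' : ∀ γ, Iso γ → Alm f γ → k * γ = γ * k ∨ k * γ = γ * k⁻¹ := by
    intro γ hI hAγ
    rcases shape γ hI hAγ with ⟨t, h⟩ | ⟨t, h⟩ | ⟨a, t, ha, h, e⟩ | ⟨a, t, ha, h, e⟩
    · left; ext z; rw [Equiv.Perm.mul_apply, Equiv.Perm.mul_apply, h, hkap, h, hkap]; ring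
    · right; ext z; rw [Equiv.Perm.mul_apply, Equiv.Perm.mul_apply, h, hkap, h, hkinv]; ring
    · left; ext z
      rw [Equiv.Perm.mul_apply, Equiv.Perm.mul_apply, h, hkap, h, hkap, map_add]
      linear_combination -e
    · right; ext z
      rw [Equiv.Perm.mul_apply, Equiv.Perm.mul_apply, h, hkap, h, hkinv, map_sub]
      linear_combination e
  have hAX : ∀ X ⊆ W, Alm f (g X) := fun X hX => Alm.of_sym (H.sym X hX)
  have hc : ∀ X ⊆ W, k * g X = g X * k ∨ k * g X = g X * k⁻¹ :=
    fun X hX => hc' _ (H.iso X hX) (hAX X hX)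
  have hfix : ∀ X ⊆ W, ∀ z, k z = z → g X z = z := fun X _ z hz => absurd hz (hmv z)
  -- commuting isometries in A
  have plus : ∀ γ, Iso γ → Alm f γ → k * γ = γ * k → (∃ t, γ = tr t) ∨
      (∃ a t, ‖a‖ = 1 ∧ (∀ z, γ z = a * conj z + t) ∧ a * conj τ = τ) := by
    intro γ hI hAγ hcm
    have hz : ∀ z, k (γ z) = γ (k z) := fun z => by
      have := congrArg (fun q : Equiv.Perm ℂ => q z) hcm
      exact this
    rcases shape γ hI hAγ with ⟨t, h⟩ | ⟨t, h⟩ | ⟨a, t, ha, h, e⟩ | ⟨a, t, ha, h, e⟩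
    · left; exact ⟨t, by ext z; rw [h, tr_apply]⟩
    · exfalso
      have := hz 0
      rw [hkap, hkap, h, h] at this
      have h2 : (2 : ℂ) * τ = 0 := by linear_combination this
      rcases mul_eq_zero.1 h2 with h3 | h3
      · norm_num at h3
      · exact hτ h3
    · right; exact ⟨a, t, ha, h, e⟩
    · exfalso
      have := hz 0
      rw [hkap, hkap, h, h, map_add] at this
      have h2 : (2 : ℂ) * τ = 0 := by linear_combination this + e
      rcases mul_eq_zero.1 h2 with h3 | h3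
      · norm_num at h3
      · exact hτ h3
  -- exact symmetries commuting with k
  have lemP : ∀ X ⊆ W, k * g X = g X * k → ∃ a t, ‖a‖ = 1 ∧ (∀ z, g X z = a * conj z + t) ∧
      a * conj τ = τ ∧ a * conj t + t = 0 := by
    intro X hX hcm
    have hex : ∀ v, v ≠ 0 → Alm f (tr v) → (∀ z, pl f X (tr v z) = pl f X z) → False := by
      intro v hv hAv hs
      obtain ⟨z, hz⟩ := NB v hv hAv
      exact exactU hs (tr_Fr hv) z (U_pl hAv (tr_Fr hv) X hz)
    rcases plus _ (H.iso X hX) (hAX X hX) hcm with ⟨t, h⟩ | ⟨a, t, ha, h, e⟩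
    · exfalso
      have ht : t ≠ 0 := by
        rintro rfl
        apply H.ne X hX
        rw [h]; ext z; simp [tr_apply]
      refine hex t ht (by rw [← h]; exact hAX X hX) ?_
      intro z
      have := H.sym X hX z
      rwa [h] at this
    · refine ⟨a, t, ha, h, e, ?_⟩
      by_contra hv
      have haa := unit_mul_conj ha
      have hsq : ∀ z, g X (g X z) = z + (a * conj t + t) := by
        intro z
        rw [h, h]; simp only [map_add, map_mul, Complex.conj_conj]
        linear_combination z * haa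
      have htr : tr (a * conj t + t) = g X * g X := by
        ext z; rw [tr_apply, Equiv.Perm.mul_apply, hsq]
      refine hex _ hv (by rw [htr]; exact (hAX X hX).mul (hAX X hX)) ?_
      intro z
      rw [htr, Equiv.Perm.mul_apply, H.sym X hX, H.sym X hX]
  have lemQ : ∀ X ⊆ W, ∀ Y ⊆ W, k * g X = g X * k → k * g Y = g Y * k → g X = g Y := by
    intro X hX Y hY h1 h2
    obtain ⟨a, t, ha, hg, ea, et⟩ := lemP X hX h1
    obtain ⟨b, s, hb, hg', eb, es⟩ := lemP Y hY h2
    have hab : a = b := by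
      apply mul_right_cancel₀ hτc
      rw [ea, eb]
    subst hab
    have haa := unit_mul_conj ha
    have htr : tr (t - s) = g X * g Y := by
      ext z; rw [tr_apply, Equiv.Perm.mul_apply, hg, hg']
      simp only [map_add, map_mul, Complex.conj_conj]
      linear_combination -z * haa - es
    have hAt : Alm f (tr (t - s)) := by rw [htr]; exact (hAX X hX).mul (hAX Y hY)
    have h3 := Tfix a _ ea hAt
    rw [map_sub] at h3
    have h4 : t = s := by linear_combination (et - es - h3) / 2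
    ext z
    rw [hg, hg', h4]
  -- commutation
  have commute' : ∀ r r' : Equiv.Perm ℂ, Iso r → Iso r' → Alm f r → Alm f r' → k * r = r * k →
      k * r' = r' * k → Commute r r' := by
    intro r r' hI hI' hAr hAr' c c'
    show r * r' = r' * r
    rcases plus r hI hAr c with ⟨t, h⟩ | ⟨a, t, ha, h, e⟩ <;>
      rcases plus r' hI' hAr' c' with ⟨s, h'⟩ | ⟨b, s, hb, h', e'⟩
    · rw [h, h', tr_mul, tr_mul, add_comm]
    · have := Tfix b t e' (by rw [← h]; exact hAr)
      rw [h]
      ext z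
      rw [Equiv.Perm.mul_apply, Equiv.Perm.mul_apply, tr_apply, tr_apply, h', h', map_add]
      linear_combination -this
    · have := Tfix a s e (by rw [← h']; exact hAr')
      rw [h']
      ext z
      rw [Equiv.Perm.mul_apply, Equiv.Perm.mul_apply, tr_apply, tr_apply, h, h, map_add]
      linear_combination this
    · have hab : a = b := by
        apply mul_right_cancel₀ hτc
        rw [e, e']
      subst hab
      have haa := unit_mul_conj ha
      have htr1 : tr (a * conj s + t) = r * r' := by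
        ext z; rw [tr_apply, Equiv.Perm.mul_apply, h, h']
        simp only [map_add, map_mul, Complex.conj_conj]
        linear_combination -z * haa
      have htr2 : tr (a * conj t + t) = r * r := by
        ext z; rw [tr_apply, Equiv.Perm.mul_apply, h, h]
        simp only [map_add, map_mul, Complex.conj_conj]
        linear_combination -z * haa
      have f1 := Tfix a _ e (by rw [htr1]; exact hAr.mul hAr')
      have f2 := Tfix a _ e (by rw [htr2]; exact hAr.mul hAr)
      simp only [map_add, map_mul, Complex.conj_conj] at f1 f2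
      ext z
      rw [Equiv.Perm.mul_apply, Equiv.Perm.mul_apply, h, h', h', h]
      simp only [map_add, map_mul, Complex.conj_conj]
      linear_combination f2 - f1 + (s - t) * haa
  have hdep' : ∀ r : Equiv.Perm ℂ, Iso r → Alm f r → k * r = r * k →
      ∃ (m : ℕ) (n : ℤ), 0 < m ∧ r ^ m = k ^ n := by
    intro r hI hAr c
    rcases plus r hI hAr c with ⟨t, h⟩ | ⟨a, t, ha, h, e⟩
    · obtain ⟨m, n, hm, hmn⟩ := Tdep t (by rw [← h]; exact hAr)
      exact ⟨m, n, hm, by rw [h, tr_pow, hk, tr_zpow, hmn]⟩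
    · have haa := unit_mul_conj ha
      have htr2 : tr (a * conj t + t) = r * r := by
        ext z; rw [tr_apply, Equiv.Perm.mul_apply, h, h]
        simp only [map_add, map_mul, Complex.conj_conj]
        linear_combination -z * haa
      obtain ⟨m, n, hm, hmn⟩ := Tdep _ (by rw [htr2]; exact hAr.mul hAr)
      refine ⟨2 * m, n, by omega, ?_⟩
      rw [pow_mul, pow_two, ← htr2, tr_pow, hk, tr_zpow, hmn]
  have rdata : ∀ X ⊆ W, ∀ Y ⊆ W, k * g X = g X * k⁻¹ → k * g Y = g Y * k⁻¹ →
      Iso ((g X)⁻¹ * g Y) ∧ Alm f ((g X)⁻¹ * g Y) ∧ k * ((g X)⁻¹ * g Y) = ((g X)⁻¹ * g Y) * k := by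
    intro X hX Y hY h1 h2
    refine ⟨(H.iso X hX).inv'.mul' (H.iso Y hY), (hAX X hX).inv.mul (hAX Y hY), ?_⟩
    have h3 : k * (g X)⁻¹ = (g X)⁻¹ * k⁻¹ := by
      rw [mul_inv_eq_iff_eq_mul, mul_assoc, eq_inv_mul_iff_mul_eq]
      calc g X * k = g X * (k⁻¹)⁻¹ := by rw [inv_inv]
        _ = k⁻¹ * g X := by
          rw [mul_inv_eq_iff_eq_mul, mul_assoc, ← h1, ← mul_assoc, inv_mul_cancel, one_mul]
    have h4 : k⁻¹ * g Y = g Y * k := by
      rw [inv_mul_eq_iff_eq_mul, ← mul_assoc, h2, mul_assoc, inv_mul_cancel, mul_one]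
    rw [← mul_assoc, h3, mul_assoc, h4, mul_assoc]
  -- the base
  have base : ∃ Xb ⊆ W, Xb.card ≤ 1 ∧ k * g Xb = g Xb * k⁻¹ ∧
      (∀ w₁ ∈ W, ∀ w₂ ∈ W, w₁ ∉ Xb → w₂ ∉ Xb → w₁ ≠ w₂ →
      k * g (Xb ∪ {w₁}) = g (Xb ∪ {w₁}) * k → k * g (Xb ∪ {w₂}) = g (Xb ∪ {w₂}) * k → False) := by
    by_cases hplus : ∃ X₁ ⊆ W, k * g X₁ = g X₁ * k
    · obtain ⟨X₁, hX₁, hcm⟩ := hplus
      have hind : Ind (g X₁) := by
        obtain ⟨a, t, ha, hg, -, -⟩ := lemP X₁ hX₁ hcm
        exact ⟨a, t, ha, hg⟩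
      have fin : ∀ Xb ⊆ W, Xb.card ≤ 1 → ¬ (∀ z, pl f Xb (g X₁ z) = pl f Xb z) →
          ∃ Xb ⊆ W, Xb.card ≤ 1 ∧ k * g Xb = g Xb * k⁻¹ ∧
          (∀ w₁ ∈ W, ∀ w₂ ∈ W, w₁ ∉ Xb → w₂ ∉ Xb → w₁ ≠ w₂ →
          k * g (Xb ∪ {w₁}) = g (Xb ∪ {w₁}) * k → k * g (Xb ∪ {w₂}) = g (Xb ∪ {w₂}) * k →
          False) := by
        intro Xb hXb hc1 hns
        refine ⟨Xb, hXb, hc1, ?_, ?_⟩
        · rcases hc Xb hXb with h | h
          · exfalso
            have := lemQ Xb hXb X₁ hX₁ h hcm
            apply hns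
            rw [← this]
            exact H.sym Xb hXb
          · exact h
        · intro w₁ m1 w₂ m2 x1 x2 hne e1 e2
          have hs1 : Xb ∪ {w₁} ⊆ W := union_subset hXb (by simpa using m1)
          have hs2 : Xb ∪ {w₂} ⊆ W := union_subset hXb (by simpa using m2)
          have q1 := H.sym _ hs1
          have q2 := H.sym _ hs2
          rw [lemQ _ hs1 X₁ hX₁ e1 hcm, pl_union (by rw [Finset.disjoint_singleton_right]; exact x1)]
            at q1
          rw [lemQ _ hs2 X₁ hX₁ e2 hcm, pl_union (by rw [Finset.disjoint_singleton_right]; exact x2)]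
            at q2
          have hfixw : g X₁ w₁ = w₁ := by
            have a1 := q1 w₁
            have a2 := q2 w₁
            by_contra hne1
            unfold pl at a1 a2
            simp only [mem_singleton] at a1 a2
            rw [if_neg hne1] at a1
            rw [if_neg hne] at a2
            simp only [if_true] at a1
            split_ifs at a1 a2 <;> omega
          apply hns
          intro z
          have a1 := q1 z
          have hiff : (g X₁ z = w₁) ↔ (z = w₁) := by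
            constructor
            · intro h; exact (g X₁).injective (h.trans hfixw.symm)
            · rintro rfl; exact hfixw
          rw [show pl (pl f Xb) {w₁} (g X₁ z) = pl f Xb (g X₁ z) + if z = w₁ then 1 else 0 by
            conv_lhs => unfold pl
            simp only [mem_singleton, hiff]
            rfl] at a1
          rw [show pl (pl f Xb) {w₁} z = pl f Xb z + if z = w₁ then 1 else 0 by
            conv_lhs => unfold pl
            simp only [mem_singleton]
            rfl] at a1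
          linarith
      by_cases hf : ∀ z, f (g X₁ z) = f z
      · obtain ⟨w₀, hw₀, hne⟩ := hadm _ hind
        refine fin {w₀} (by simpa using hw₀) (by simp) ?_
        intro hs
        have h1 := hs w₀
        have h2 := hf w₀
        unfold pl at h1
        rw [h2] at h1
        simp [hne] at h1
      · refine fin ∅ (by simp) (by simp) ?_
        intro hs
        apply hf
        intro z
        simpa [pl] using hs z
    · refine ⟨∅, by simp, by simp, ?_, ?_⟩
      · rcases hc ∅ (by simp) with h | h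
        · exact absurd ⟨∅, by simp, h⟩ hplus
        · exact h
      · intro w₁ m1 w₂ m2 x1 x2 hne e1 e2
        exact hplus ⟨_, by simpa using m1, e1⟩
  obtain ⟨Xb, hXb, hXb1, hb, hone⟩ := base
  have hsub : ∀ w ∈ W, Xb ∪ {w} ⊆ W := fun w hw => union_subset hXb (by simpa using hw)
  refine COUNT H hA hF hc hfix hadm hW hXb hXb1 hb ?_ ?_ ?_
  · intro w₁ m1 w₂ m2 x1 x2 _ _ hne e1 e2
    exact hone w₁ m1 w₂ m2 x1 x2 hne e1 e2
  · intro w₁ m1 w₂ m2 e1 e2
    obtain ⟨i1, a1, c1⟩ := rdata Xb hXb _ (hsub w₁ m1) hb e1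
    obtain ⟨i2, a2, c2⟩ := rdata Xb hXb _ (hsub w₂ m2) hb e2
    exact commute' _ _ i1 i2 a1 a2 c1 c2
  · intro w hw _ e
    obtain ⟨i1, a1, c1⟩ := rdata Xb hXb _ (hsub w hw) hb e
    exact hdep' _ i1 a1 c1

/-- The core theorem for the full isometry group. -/
theorem core19 {f : ℂ → ℤ} {W : Finset ℂ} {g : Finset ℂ → Equiv.Perm ℂ} (H : Sys f W g)
    (hadm : ∀ κ, Ind κ → ∃ w ∈ W, κ w ≠ w) (hW : 19 ≤ W.card) : False := by
  by_cases hT : ∃ τ, τ ≠ 0 ∧ Alm f (tr τ)
  · by_cases hB : ∃ τ, τ ≠ 0 ∧ Alm f (tr τ) ∧ ∀ z, z ∉ U f (tr τ)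
    · obtain ⟨τ, hτ, hA, hU⟩ := hB
      exact alpha1 H hadm (by omega) hτ hA hU
    · push Not at hB
      obtain ⟨τ, hτ, hA⟩ := hT
      exact alpha2 H hadm hW hB hτ hA
  · push Not at hT
    exact beta H hadm hW hT

end Pool.Agent.V11293.EXU
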