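import Pool.Agent.V11293.EXU.Count

namespace Pool.Agent.V11293.EXU

open Finset ComplexConjugate Pool.Agent.V11293.EXT

/-- `r` is the rotation about `p` with multiplier `c`. -/
def Rot (p : ℂ) (r : Equiv.Perm ℂ) (c : ℂ) : Prop := ∀ z, r z = p + c * (z - p)

theorem Rot.mul {p : ℂ} {r s : Equiv.Perm ℂ} {c d : ℂ} (hr : Rot p r c) (hs : Rot p s d) :
    Rot p (r * s) (c * d) := by
  intro z
  rw [Equiv.Perm.mul_apply, hr, hs]
  ring

theorem Rot.inv {p : ℂ} {r : Equiv.Perm ℂ} {c : ℂ} (hr : Rot p r c) (hc : c ≠ 0) :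
    Rot p r⁻¹ c⁻¹ := by
  intro z
  rw [Equiv.Perm.inv_eq_iff_eq, hr]
  field_simp
  ring

theorem Rot.pow {p : ℂ} {r : Equiv.Perm ℂ} {c : ℂ} (hr : Rot p r c) (n : ℕ) :
    Rot p (r ^ n) (c ^ n) := by
  induction n with
  | zero => intro z; simp
  | succ n ih => rw [pow_succ, pow_succ]; exact ih.mul hr

theorem Rot.zpow {p : ℂ} {r : Equiv.Perm ℂ} {c : ℂ} (hr : Rot p r c) (hc : c ≠ 0) (n : ℤ) :
    Rot p (r ^ n) (c ^ n) := by
  cases n with
  | ofNat n => rw [Int.ofNat_eq_natCast, zpow_natCast, zpow_natCast]; exact hr.pow n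
  | negSucc n => rw [zpow_negSucc, zpow_negSucc]; exact (hr.pow _).inv (pow_ne_zero _ hc)

theorem Rot.comm {p : ℂ} {r s : Equiv.Perm ℂ} {c d : ℂ} (hr : Rot p r c) (hs : Rot p s d) :
    Commute r s := by
  show r * s = s * r
  ext z
  rw [hr.mul hs z, hs.mul hr z]
  ring

theorem Rot.eq_of {p : ℂ} {r s : Equiv.Perm ℂ} {c d : ℂ} (hr : Rot p r c) (hs : Rot p s d)
    {z : ℂ} (hz : z ≠ p) (h : r z = s z) : r = s := by
  have hcd : c = d := by
    rw [hr, hs] at h
    have h1 : (c - d) * (z - p) = 0 := by linear_combination h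
    have := (mul_eq_zero.1 h1).resolve_right (sub_ne_zero.2 hz)
    linear_combination this
  subst hcd
  ext w
  rw [hr, hs]

theorem earg {b : ℂ → ℤ} {p : ℂ} {r₁ r₂ : Equiv.Perm ℂ} {c₁ c₂ w₁ w₂ : ℂ} (h1 : Rot p r₁ c₁)
    (h2 : Rot p r₂ c₂) (hc1 : c₁ ≠ 1) (hc2 : c₂ ≠ 1) (hc20 : c₂ ≠ 0) (hw1 : w₁ ≠ p) (hw2 : w₂ ≠ p)
    (hw : w₁ ≠ w₂) (s1 : ∀ z, pl b {w₁} (r₁ z) = pl b {w₁} z)
    (s2 : ∀ z, pl b {w₂} (r₂ z) = pl b {w₂} z) : False := by
  have m1 : ∀ z, z ≠ p → r₁ z ≠ z := by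
    intro z hz h
    rw [h1] at h
    have h3 : (c₁ - 1) * (z - p) = 0 := by linear_combination h
    rcases mul_eq_zero.1 h3 with h4 | h4
    · exact hc1 (by linear_combination h4)
    · exact hz (by linear_combination h4)
  have m2 : ∀ z, z ≠ p → r₂ z ≠ z := by
    intro z hz h
    rw [h2] at h
    have h3 : (c₂ - 1) * (z - p) = 0 := by linear_combination h
    rcases mul_eq_zero.1 h3 with h4 | h4
    · exact hc2 (by linear_combination h4)
    · exact hz (by linear_combination h4)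
  have hcomm : ∀ z, r₁ (r₂ z) = r₂ (r₁ z) := by
    intro z; rw [h1, h2, h2, h1]; ring
  have E1 : ∀ z, b (r₁ z) = b z + (if z = w₁ then 1 else 0) - (if r₁ z = w₁ then 1 else 0) := by
    intro z
    have := s1 z
    unfold pl at this
    simp only [mem_singleton] at this
    linarith
  have E2 : ∀ z, b (r₂ z) = b z + (if z = w₂ then 1 else 0) - (if r₂ z = w₂ then 1 else 0) := by
    intro z
    have := s2 z
    unfold pl at this
    simp only [mem_singleton] at this
    linarith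
  have E : ∀ z, (if r₂ z = w₁ then (1 : ℤ) else 0) - (if r₁ (r₂ z) = w₁ then 1 else 0)
      + (if z = w₂ then 1 else 0) - (if r₂ z = w₂ then 1 else 0)
      = (if r₁ z = w₂ then 1 else 0) - (if r₁ (r₂ z) = w₂ then 1 else 0)
      + (if z = w₁ then 1 else 0) - (if r₁ z = w₁ then 1 else 0) := by
    intro z
    have a1 := E1 (r₂ z)
    have a2 := E2 z
    have a3 := E2 (r₁ z)
    have a4 := E1 z
    rw [← hcomm] at a3
    linarith
  have k1 := E w₁
  rw [if_neg (m2 w₁ hw1), if_neg hw, if_neg (m1 w₁ hw1)] at k1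
  simp only [if_true] at k1
  have k2 := E w₂
  rw [if_neg (m2 w₂ hw2), if_neg (Ne.symm hw), if_neg (m1 w₂ hw2)] at k2
  simp only [if_true] at k2
  have q1 : r₁ (r₂ w₁) = w₂ := by
    by_contra hne
    rw [if_neg hne] at k1
    split_ifs at k1 <;> omega
  have q2 : r₁ (r₂ w₂) = w₁ := by
    by_contra hne
    rw [if_neg hne] at k2
    split_ifs at k2 <;> omega
  have k1' : r₁ w₁ ≠ w₂ := by
    intro h
    rw [if_pos h, if_pos q1] at k1
    split_ifs at k1 <;> omega
  have k2' : r₂ w₂ ≠ w₁ := by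
    intro h
    rw [if_pos h, if_pos q2] at k2
    split_ifs at k2 <;> omega
  -- third evaluation
  obtain ⟨u, hu⟩ : ∃ u, r₂ u = w₁ := r₂.surjective w₁
  have hup : u ≠ p := by
    intro h
    apply hw1
    rw [← hu, h, h2]; ring
  have k3 := E u
  rw [hu, if_pos rfl, if_neg (m1 w₁ hw1), if_neg hw, if_neg k1'] at k3
  have hu1 : u ≠ w₁ := by
    intro h
    exact m2 u hup (hu.trans h.symm)
  rw [if_neg hu1] at k3
  have q3 : r₁ u = w₂ := by
    by_contra hne
    rw [if_neg hne] at k3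
    split_ifs at k3 <;> omega
  -- conclude
  have y1 : w₁ - p ≠ 0 := sub_ne_zero.2 hw1
  have f1 : c₁ * c₂ * (w₁ - p) = w₂ - p := by
    have := q1; rw [h2, h1] at this; linear_combination this
  have f2 : c₁ * c₂ * (w₂ - p) = w₁ - p := by
    have := q2; rw [h2, h1] at this; linear_combination this
  have f3 : c₂ * (u - p) = w₁ - p := by
    have := hu; rw [h2] at this; linear_combination this
  have f4 : c₁ * (u - p) = w₂ - p := by
    have := q3; rw [h1] at this; linear_combination this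
  have g1 : (c₁ * c₂ + 1) * (c₁ * c₂ - 1) = 0 := by
    have : ((c₁ * c₂ + 1) * (c₁ * c₂ - 1)) * (w₁ - p) = 0 := by
      linear_combination (c₁ * c₂) * f1 + f2
    exact (mul_eq_zero.1 this).resolve_right y1
  have g2 : c₁ * c₂ ≠ 1 := by
    intro h
    rw [h, one_mul] at f1
    exact hw (by linear_combination f1)
  have g3 : c₁ * c₂ = -1 := by
    rcases mul_eq_zero.1 g1 with h | h
    · linear_combination h
    · exact absurd (by linear_combination h) g2
  have g4 : (c₂ - 1) * (c₂ + 1) = 0 := by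
    have hu0 : u - p ≠ 0 := sub_ne_zero.2 hup
    have h5 : c₁ * (c₂ ^ 2 - 1) * (u - p) = 0 := by
      linear_combination f1 - f4 + c₁ * c₂ * f3
    have hc10 : c₁ ≠ 0 := by
      rintro rfl
      simp at g3
    have h6 := (mul_eq_zero.1 h5).resolve_right hu0
    have h7 := (mul_eq_zero.1 h6).resolve_left hc10
    linear_combination h7
  have g5 : c₂ = -1 := by
    rcases mul_eq_zero.1 g4 with h | h
    · exact absurd (by linear_combination h) hc2
    · linear_combination h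
  rw [g5] at g3
  exact hc1 (by linear_combination -g3)

theorem lem1 {f : ℂ → ℤ} {p w : ℂ} {h k : Equiv.Perm ℂ} {c d : ℂ} (hh : Rot p h c)
    (hk : Rot p k d) (hc : c ≠ 1) (hd : d ≠ 1) (hw : w ≠ p) (h0 : ∀ z, f (h z) = f z)
    (h1 : ∀ z, pl f {w} (k z) = pl f {w} z) : False := by
  have m1 : h w ≠ w := by
    intro e
    rw [hh] at e
    have h3 : (c - 1) * (w - p) = 0 := by linear_combination e
    rcases mul_eq_zero.1 h3 with h4 | h4
    · exact hc (by linear_combination h4)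
    · exact hw (by linear_combination h4)
  have m2 : k w ≠ w := by
    intro e
    rw [hk] at e
    have h3 : (d - 1) * (w - p) = 0 := by linear_combination e
    rcases mul_eq_zero.1 h3 with h4 | h4
    · exact hd (by linear_combination h4)
    · exact hw (by linear_combination h4)
  have e1 := h1 w
  have e2 := h1 (h w)
  have e3 := h0 (k w)
  have e4 := h0 w
  have e5 : h (k w) = k (h w) := by rw [hh, hk, hk, hh]; ring
  rw [e5] at e3
  unfold pl at e1 e2
  simp only [mem_singleton] at e1 e2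
  rw [if_neg m2] at e1
  rw [if_neg m1] at e2
  simp only [if_true] at e1
  split_ifs at e2 <;> omega

theorem beta1 {f : ℂ → ℤ} {W : Finset ℂ} {g : Finset ℂ → Equiv.Perm ℂ} (H : Sys f W g)
    (hadm : ∀ κ, Ind κ → ∃ w ∈ W, κ w ≠ w) (hW : 19 ≤ W.card) {p a : ℂ} {k : Equiv.Perm ℂ}
    (ha : ‖a‖ = 1) (hk : Rot p k a) (hinf : ∀ n : ℤ, n ≠ 0 → a ^ n ≠ 1) (hA : Alm f k)
    (hp : ∀ X ⊆ W, g X p = p) : False := by
  have ha0 : a ≠ 0 := by rintro rfl; simp at ha
  have ha1 : a ≠ 1 := by have := hinf 1 (by norm_num); simpa using this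
  have haa : a * conj a = 1 := by
    rw [Complex.mul_conj, Complex.normSq_eq_norm_sq, ha]; simp
  have hai : conj (a⁻¹) = a := by
    rw [map_inv₀]
    have : conj a ≠ 0 := (map_ne_zero _).2 ha0
    field_simp
    linear_combination -haa
  have hkz : ∀ z, k z = z → z = p := by
    intro z e
    rw [hk] at e
    have h3 : (a - 1) * (z - p) = 0 := by linear_combination e
    rcases mul_eq_zero.1 h3 with h4 | h4
    · exact absurd (by linear_combination h4) ha1
    · linear_combination h4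
  have hF : Fr k := by
    intro z hz n hn e
    rw [hk.zpow ha0] at e
    have h3 : (a ^ n - 1) * (z - p) = 0 := by linear_combination e
    rcases mul_eq_zero.1 h3 with h4 | h4
    · exact hinf n hn (by linear_combination h4)
    · apply hz
      have : z = p := by linear_combination h4
      rw [this, hk]; ring
  have hfix : ∀ X ⊆ W, ∀ z, k z = z → g X z = z := by
    intro X hX z hz
    rw [hkz z hz]; exact hp X hX
  have htyp : ∀ X ⊆ W, (∃ c, c ≠ 0 ∧ c ≠ 1 ∧ Rot p (g X) c) ∨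
      (∃ b : ℂ, ‖b‖ = 1 ∧ ∀ z, g X z = p + b * conj (z - p)) := by
    intro X hX
    rcases (H.iso X hX).typ (H.ne X hX) (hp X hX) with ⟨c, hc, hc1, hg⟩ | ⟨b, hb, hg⟩
    · left
      refine ⟨c, by rintro rfl; simp at hc, hc1, fun z => ?_⟩
      rw [← hg]; ring
    · right
      exact ⟨b, hb, fun z => by rw [← hg]; ring⟩
  have hmir : ∀ X ⊆ W, (∃ b : ℂ, ‖b‖ = 1 ∧ ∀ z, g X z = p + b * conj (z - p)) →
      k * g X = g X * k⁻¹ := by
    rintro X hX ⟨b, hb, hg⟩
    ext z
    rw [Equiv.Perm.mul_apply, Equiv.Perm.mul_apply, hg, hk, hg, hk.inv ha0]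
    have : conj (p + a⁻¹ * (z - p) - p) = a * conj (z - p) := by
      rw [show p + a⁻¹ * (z - p) - p = a⁻¹ * (z - p) by ring, map_mul, hai]
    rw [this]; ring
  have hrotc : ∀ X ⊆ W, (∃ c, c ≠ 0 ∧ c ≠ 1 ∧ Rot p (g X) c) → k * g X = g X * k := by
    rintro X hX ⟨c, -, -, hg⟩
    exact hk.comm hg
  have hkk : k ≠ k⁻¹ := by
    intro e
    have h1 : k ^ 2 = 1 := by rw [pow_two]; nth_rewrite 2 [e]; simp
    have h2 := hk.pow 2 (p + 1)
    rw [h1] at h2
    simp only [Equiv.Perm.one_apply] at h2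
    apply hinf 2 (by norm_num)
    have : a ^ (2 : ℤ) = a ^ 2 := by norm_cast
    rw [this]
    linear_combination -h2
  have hcomrot : ∀ X ⊆ W, k * g X = g X * k → ∃ c, c ≠ 0 ∧ c ≠ 1 ∧ Rot p (g X) c := by
    intro X hX e
    rcases htyp X hX with h | h
    · exact h
    · exfalso
      have e2 := hmir X hX h
      rw [e] at e2
      exact hkk (mul_left_cancel e2)
  have hflmir : ∀ X ⊆ W, k * g X = g X * k⁻¹ →
      (∃ b : ℂ, ‖b‖ = 1 ∧ ∀ z, g X z = p + b * conj (z - p)) := by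
    intro X hX e
    rcases htyp X hX with h | h
    · exfalso
      have e2 := hrotc X hX h
      rw [e] at e2
      exact hkk (mul_left_cancel e2).symm
    · exact h
  have hc : ∀ X ⊆ W, k * g X = g X * k ∨ k * g X = g X * k⁻¹ := by
    intro X hX
    rcases htyp X hX with h | h
    · left; exact hrotc X hX h
    · right; exact hmir X hX h
  -- base
  obtain ⟨Xb, hXb, hXb1, hb⟩ : ∃ Xb ⊆ W, Xb.card ≤ 1 ∧ k * g Xb = g Xb * k⁻¹ := by
    rcases htyp ∅ (by simp) with ⟨c, hc0, hc1, hg⟩ | h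
    · obtain ⟨w₀, hw₀, hw₀p⟩ : ∃ w₀ ∈ W, w₀ ≠ p := by
        obtain ⟨x, hx, y, hy, hxy⟩ := one_lt_card.1 (by omega : 1 < W.card)
        by_cases hxp : x = p
        · exact ⟨y, hy, fun h => hxy (hxp.trans h.symm)⟩
        · exact ⟨x, hx, hxp⟩
      have hs : ({w₀} : Finset ℂ) ⊆ W := by simpa using hw₀
      refine ⟨{w₀}, hs, by simp, ?_⟩
      rcases htyp {w₀} hs with ⟨d, hd0, hd1, hg2⟩ | h
      · exfalso
        exact lem1 hg hg2 hc1 hd1 hw₀p (fun z => by simpa [pl] using H.sym ∅ (by simp) z)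
          (H.sym _ hs)
      · exact hmir _ hs h
    · exact ⟨∅, by simp, by simp, hmir ∅ (by simp) h⟩
  obtain ⟨b₀, hb₀, hg₀⟩ := hflmir Xb hXb hb
  have hb₀0 : b₀ ≠ 0 := by rintro rfl; simp at hb₀
  have hrr : ∀ w ∈ W, k * g (Xb ∪ {w}) = g (Xb ∪ {w}) * k⁻¹ →
      ∃ c, Rot p ((g Xb)⁻¹ * g (Xb ∪ {w})) c := by
    intro w hw e
    have hsub : Xb ∪ {w} ⊆ W := union_subset hXb (by simpa using hw)
    obtain ⟨b₁, hb₁, hg₁⟩ := hflmir _ hsub e
    refine ⟨b₀ * conj b₁, fun z => ?_⟩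
    rw [Equiv.Perm.mul_apply, Equiv.Perm.inv_eq_iff_eq, hg₀, hg₁]
    have hbb : b₀ * conj b₀ = 1 := by
      rw [Complex.mul_conj, Complex.normSq_eq_norm_sq, hb₀]; simp
    simp only [map_sub, map_add, map_mul, Complex.conj_conj]
    linear_combination (-b₁ * (conj z - conj p)) * hbb
  refine COUNT H hA hF hc hfix hadm hW hXb hXb1 hb ?_ ?_ ?_
  · intro w₁ m1 w₂ m2 x1 x2 u1 u2 hne e1 e2
    have hs1 : Xb ∪ {w₁} ⊆ W := union_subset hXb (by simpa using m1)
    have hs2 : Xb ∪ {w₂} ⊆ W := union_subset hXb (by simpa using m2)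
    obtain ⟨c₁, c10, c11, r1⟩ := hcomrot _ hs1 e1
    obtain ⟨c₂, c20, c21, r2⟩ := hcomrot _ hs2 e2
    have np : ∀ w, w ∈ U f k → w ≠ p := by
      intro w hw h
      apply U_moved hA hF hw
      rw [h, hk]; ring
    refine earg (b := pl f Xb) r1 r2 c11 c21 c20 (np _ u1) (np _ u2) hne ?_ ?_
    · intro z
      rw [← pl_union (by rw [Finset.disjoint_singleton_right]; exact x1)]
      exact H.sym _ hs1 z
    · intro z
      rw [← pl_union (by rw [Finset.disjoint_singleton_right]; exact x2)]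
      exact H.sym _ hs2 z
  · intro w₁ m1 w₂ m2 e1 e2
    obtain ⟨c₁, r1⟩ := hrr w₁ m1 e1
    obtain ⟨c₂, r2⟩ := hrr w₂ m2 e2
    exact r1.comm r2
  · intro w hw hwU e
    obtain ⟨c, hr⟩ := hrr w hw e
    have hsub : Xb ∪ {w} ⊆ W := union_subset hXb (by simpa using hw)
    have hwp : w ≠ p := by
      intro h
      apply U_moved hA hF hwU
      rw [h, hk]; ring
    have hAr : Alm f ((g Xb)⁻¹ * g (Xb ∪ {w})) :=
      (Alm.of_sym (H.sym _ hXb)).inv.mul (Alm.of_sym (H.sym _ hsub))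
    obtain ⟨m, n, hm, hmn⟩ := DEP hA hF hAr (hk.comm hr) (by
      intro z hz
      rw [hkz z hz, hr]; ring) hwU
    exact ⟨m, n, hm, (hr.pow m).eq_of (hk.zpow ha0 n) hwp hmn⟩

end Pool.Agent.V11293.EXU
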