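import Pool.Agent.V11293.EXU.Beta

namespace Pool.Agent.V11293.EXU

open Finset ComplexConjugate Pool.Agent.V11293.EXT

/-- translation -/
def tr (τ : ℂ) : Equiv.Perm ℂ := Equiv.addRight τ

theorem tr_apply (τ z : ℂ) : tr τ z = z + τ := rfl

theorem eqv {f : ℂ → ℤ} (hNT : ∀ τ, τ ≠ 0 → ¬ Alm f (tr τ)) {P₁ P₂ : Equiv.Perm ℂ} {δ : ℂ}
    (h : ∀ z, P₁ z = P₂ z + δ) (A1 : Alm f P₁) (A2 : Alm f P₂) : P₁ = P₂ := by
  have hd : δ = 0 := by
    by_contra hne
    apply hNT δ hne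
    have : tr δ = P₁ * P₂⁻¹ := by
      ext z
      rw [Equiv.Perm.mul_apply, h, aiv, tr_apply]
    rw [this]
    exact A1.mul A2.inv
  ext z
  rw [h, hd, add_zero]

theorem fixAll {f : ℂ → ℤ} (hNT : ∀ τ, τ ≠ 0 → ¬ Alm f (tr τ)) {r : Equiv.Perm ℂ} (hr : Dir r)
    (hr1 : r ≠ 1) (hA : Alm f r) : ∃ p a : ℂ, ‖a‖ = 1 ∧ a ≠ 1 ∧ Rot p r a ∧
      ∀ γ, Iso γ → Alm f γ → γ p = p := by
  obtain ⟨a, t, ha, hrz⟩ := hr
  have ha1 : a ≠ 1 := by
    rintro rfl
    have ht : t ≠ 0 := by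
      rintro rfl
      apply hr1
      ext z
      rw [hrz]; simp
    apply hNT t ht
    have : tr t = r := by ext z; rw [hrz, tr_apply]; ring
    rw [this]; exact hA
  have h1a : 1 - a ≠ 0 := sub_ne_zero.2 (Ne.symm ha1)
  have ha0 : a ≠ 0 := by rintro rfl; simp at ha
  have haa : a * conj a = 1 := by
    rw [Complex.mul_conj, Complex.normSq_eq_norm_sq, ha]; simp
  set p := t / (1 - a) with hp
  have ht : t = (1 - a) * p := by rw [hp]; field_simp
  have hR : Rot p r a := by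
    intro z; rw [hrz, ht]; ring
  have huniq : ∀ z, r z = z → z = p := by
    intro z e
    rw [hR] at e
    have h3 : (a - 1) * (z - p) = 0 := by linear_combination e
    rcases mul_eq_zero.1 h3 with h4 | h4
    · exact absurd (by linear_combination h4) ha1
    · linear_combination h4
  have hrp : r p = p := by rw [hR]; ring
  refine ⟨p, a, ha, ha1, hR, ?_⟩
  intro γ hγ hAγ
  rcases hγ with ⟨b, s, hb, hγ⟩ | ⟨b, s, hb, hγ⟩
  · have e := eqv hNT (P₁ := γ * r) (P₂ := r * γ) (δ := b * t + s - a * s - t) (by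
      intro z
      rw [Equiv.Perm.mul_apply, Equiv.Perm.mul_apply, hγ, hrz, hrz, hγ]; ring)
      (hAγ.mul hA) (hA.mul hAγ)
    apply huniq
    have := congrArg (fun q : Equiv.Perm ℂ => q p) e
    simp only [Equiv.Perm.mul_apply, hrp] at this
    exact this.symm
  · have hinv : ∀ z, r⁻¹ z = conj a * (z - t) := by
      intro z
      rw [Equiv.Perm.inv_eq_iff_eq, hrz]
      linear_combination (t - z) * haa
    have e := eqv hNT (P₁ := γ * r) (P₂ := r⁻¹ * γ) (δ := b * conj t + s - conj a * s + conj a * t) (by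
      intro z
      rw [Equiv.Perm.mul_apply, Equiv.Perm.mul_apply, hγ, hrz, hinv, hγ, map_add, map_mul]; ring)
      (hAγ.mul hA) (hA.inv.mul hAγ)
    apply huniq
    have := congrArg (fun q : Equiv.Perm ℂ => q p) e
    simp only [Equiv.Perm.mul_apply, hrp] at this
    have h2 := congrArg r this
    rw [aiv] at h2
    exact h2

theorem beta3 {f : ℂ → ℤ} {W : Finset ℂ} {g : Finset ℂ → Equiv.Perm ℂ} (H : Sys f W g)
    (hadm : ∀ κ, Ind κ → ∃ w ∈ W, κ w ≠ w) (hnr : ∀ r, Dir r → Alm f r → r = 1) : False := by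
  have hI : ∀ X ⊆ W, Ind (g X) := by
    intro X hX
    rcases H.iso X hX with h | h
    · exact absurd (hnr _ h (Alm.of_sym (H.sym X hX))) (H.ne X hX)
    · exact h
  have heq : ∀ X ⊆ W, g X = g ∅ := by
    intro X hX
    obtain ⟨a, t, ha, h1⟩ := hI X hX
    obtain ⟨b, s, hb, h2⟩ := hI ∅ (by simp)
    have hbb : b * conj b = 1 := by
      rw [Complex.mul_conj, Complex.normSq_eq_norm_sq, hb]; simp
    have hD : Dir ((g ∅)⁻¹ * g X) := by
      refine ⟨b * conj a, b * (conj t - conj s), ?_, fun z => ?_⟩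
      · rw [norm_mul, hb, Complex.norm_conj, ha, one_mul]
      · rw [Equiv.Perm.mul_apply, Equiv.Perm.inv_eq_iff_eq, h1, h2]
        simp only [map_add, map_mul, map_sub, Complex.conj_conj]
        linear_combination (-(a * conj z) - t + s) * hbb
    have := hnr _ hD ((Alm.of_sym (H.sym ∅ (by simp))).inv.mul (Alm.of_sym (H.sym X hX)))
    rw [inv_mul_eq_one] at this
    exact this.symm
  obtain ⟨w, hw, hne⟩ := hadm (g ∅) (hI ∅ (by simp))
  have h1 := H.sym {w} (by simpa using hw) w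
  have h0 := H.sym ∅ (by simp) w
  rw [heq {w} (by simpa using hw)] at h1
  unfold pl at h0 h1
  simp [hne] at h0 h1
  omega

theorem beta2 {f : ℂ → ℤ} {W : Finset ℂ} {g : Finset ℂ → Equiv.Perm ℂ} (H : Sys f W g)
    (hadm : ∀ κ, Ind κ → ∃ w ∈ W, κ w ≠ w) (hW : 15 ≤ W.card) {p : ℂ}
    (hp : ∀ X ⊆ W, g X p = p)
    (hfin : ∀ (r : Equiv.Perm ℂ) (a : ℂ), ‖a‖ = 1 → Rot p r a → Alm f r → ∃ n : ℕ, 0 < n ∧ a ^ n = 1) :
    False := by
  classical
  have htyp : ∀ X ⊆ W, (∃ c, ‖c‖ = 1 ∧ Rot p (g X) c) ∨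
      (∃ b : ℂ, ‖b‖ = 1 ∧ ∀ z, g X z = p + b * conj (z - p)) := by
    intro X hX
    rcases (H.iso X hX).typ (H.ne X hX) (hp X hX) with ⟨c, hc, hc1, hg⟩ | ⟨b, hb, hg⟩
    · left
      exact ⟨c, hc, fun z => by rw [← hg]; ring⟩
    · right
      exact ⟨b, hb, fun z => by rw [← hg]; ring⟩
  -- finite-order statement for pairs
  have hpair : ∀ q : Finset ℂ × Finset ℂ, ∃ n : ℕ, 0 < n ∧ (q.1 ⊆ W → q.2 ⊆ W →
      (∀ c, ‖c‖ = 1 → Rot p (g q.1) c → c ^ n = 1) ∧
      (∀ b b' : ℂ, ‖b‖ = 1 → ‖b'‖ = 1 → (∀ z, g q.1 z = p + b * conj (z - p)) →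
        (∀ z, g q.2 z = p + b' * conj (z - p)) → (b * conj b') ^ n = 1)) := by
    rintro ⟨X, Y⟩
    by_cases hX : X ⊆ W
    swap
    · exact ⟨1, one_pos, fun h => absurd h hX⟩
    by_cases hY : Y ⊆ W
    swap
    · exact ⟨1, one_pos, fun _ h => absurd h hY⟩
    have A1 := Alm.of_sym (H.sym X hX)
    have A2 := Alm.of_sym (H.sym Y hY)
    have hrotu : ∀ {r : Equiv.Perm ℂ} {c d : ℂ}, Rot p r c → Rot p r d → c = d := by
      intro r c d h1 h2
      have := (h1 (p + 1)).symm.trans (h2 (p + 1))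
      linear_combination this
    have hmiru : ∀ {r : Equiv.Perm ℂ} {c d : ℂ}, (∀ z, r z = p + c * conj (z - p)) →
        (∀ z, r z = p + d * conj (z - p)) → c = d := by
      intro r c d h1 h2
      have := (h1 (p + 1)).symm.trans (h2 (p + 1))
      rw [show p + 1 - p = 1 by ring, map_one] at this
      linear_combination this
    have hno : ∀ {r : Equiv.Perm ℂ} {c d : ℂ}, Rot p r c → ‖d‖ = 1 →
        (∀ z, r z = p + d * conj (z - p)) → False := by
      intro r c d h1 hd h2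
      have e1 := (h1 (p + 1)).symm.trans (h2 (p + 1))
      have e2 := (h1 (p + Complex.I)).symm.trans (h2 (p + Complex.I))
      rw [show p + 1 - p = 1 by ring, map_one] at e1
      rw [show p + Complex.I - p = Complex.I by ring, Complex.conj_I] at e2
      have hcd : c = d := by linear_combination e1
      rw [hcd] at e2
      have : d * (2 * Complex.I) = 0 := by linear_combination e2
      rcases mul_eq_zero.1 this with h | h
      · rw [h] at hd; simp at hd
      · simp [Complex.I_ne_zero] at h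
    rcases htyp X hX with ⟨c, hc, hg⟩ | ⟨b, hb, hg⟩
    · obtain ⟨n, hn, hcn⟩ := hfin _ c hc hg A1
      refine ⟨n, hn, fun _ _ => ⟨?_, ?_⟩⟩
      · intro c' _ hg'
        rw [hrotu hg' hg]; exact hcn
      · intro b b' hb _ hgb _
        exact (hno hg hb hgb).elim
    · rcases htyp Y hY with ⟨c', hc', hg'⟩ | ⟨b', hb', hg'⟩
      · refine ⟨1, one_pos, fun _ _ => ⟨?_, ?_⟩⟩
        · intro c _ hgc
          exact (hno hgc hb hg).elim
        · intro _ b'' _ hb'' _ hgb
          exact (hno hg' hb'' hgb).elim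
      · have hbb : b' * conj b' = 1 := by
          rw [Complex.mul_conj, Complex.normSq_eq_norm_sq, hb']; simp
        have hR : Rot p (g X * (g Y)⁻¹) (b * conj b') := by
          intro z
          have h3 : (g Y)⁻¹ z = p + b' * conj (z - p) := by
            rw [Equiv.Perm.inv_eq_iff_eq, hg']
            simp only [map_sub, map_add, map_mul, Complex.conj_conj]
            linear_combination (p - z) * hbb
          rw [Equiv.Perm.mul_apply, h3, hg]
          simp only [map_sub, map_add, map_mul, Complex.conj_conj]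
          ring
        obtain ⟨n, hn, hcn⟩ := hfin _ (b * conj b') (by
          rw [norm_mul, hb, Complex.norm_conj, hb', one_mul]) hR (A1.mul A2.inv)
        refine ⟨n, hn, fun _ _ => ⟨?_, ?_⟩⟩
        · intro c _ hgc
          exact (hno hgc hb hg).elim
        · intro b₁ b₂ _ _ h1 h2
          rw [hmiru h1 hg, hmiru h2 hg']; exact hcn
  choose n hn0 hn using hpair
  set PW := W.powerset ×ˢ W.powerset with hPW
  set N := ∏ q ∈ PW, n q with hN
  have hN0 : 0 < N := Finset.prod_pos fun q _ => hn0 q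
  have hdvd : ∀ X ⊆ W, ∀ Y ⊆ W, n (X, Y) ∣ N := by
    intro X hX Y hY
    apply Finset.dvd_prod_of_mem
    rw [hPW, mem_product]
    exact ⟨mem_powerset.2 hX, mem_powerset.2 hY⟩
  have hrotN : ∀ X ⊆ W, ∀ c, ‖c‖ = 1 → Rot p (g X) c → c ^ N = 1 := by
    intro X hX c hc hg
    obtain ⟨m, hm⟩ := hdvd X hX X hX
    rw [hm, pow_mul, (hn (X, X) hX hX).1 c hc hg, one_pow]
  have hmirN : ∀ X ⊆ W, ∀ Y ⊆ W, ∀ b b' : ℂ, ‖b‖ = 1 → ‖b'‖ = 1 →
      (∀ z, g X z = p + b * conj (z - p)) → (∀ z, g Y z = p + b' * conj (z - p)) → b ^ N = b' ^ N := by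
    intro X hX Y hY b b' hb hb' h1 h2
    obtain ⟨m, hm⟩ := hdvd X hX Y hY
    have h3 : (b * conj b') ^ N = 1 := by
      rw [hm, pow_mul, (hn (X, Y) hX hY).2 b b' hb hb' h1 h2, one_pow]
    have hbb : b' * conj b' = 1 := by
      rw [Complex.mul_conj, Complex.normSq_eq_norm_sq, hb']; simp
    have h4 : (b' * conj b') ^ N = 1 := by rw [hbb, one_pow]
    rw [mul_pow] at h3 h4
    have h5 : (conj b') ^ N ≠ 0 := by
      intro h; rw [h, mul_zero] at h4; exact zero_ne_one h4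
    apply mul_right_cancel₀ h5
    rw [h3, h4]
  obtain ⟨c₀, hc₀, hc₀'⟩ : ∃ c₀ : ℂ, c₀ * conj c₀ = 1 ∧ ∀ X ⊆ W, ∀ b, ‖b‖ = 1 →
      (∀ z, g X z = p + b * conj (z - p)) → b ^ N = c₀ := by
    by_cases hex : ∃ Y ⊆ W, ∃ b' : ℂ, ‖b'‖ = 1 ∧ ∀ z, g Y z = p + b' * conj (z - p)
    · obtain ⟨Y, hY, b', hb', hgY⟩ := hex
      refine ⟨b' ^ N, ?_, fun X hX b hb hg => hmirN X hX Y hY b b' hb hb' hg hgY⟩
      rw [Complex.mul_conj, Complex.normSq_eq_norm_sq, norm_pow, hb']; simp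
    · refine ⟨1, by simp, fun X hX b hb hg => ?_⟩
      exact (hex ⟨X, hX, b, hb, hg⟩).elim
  -- the finite invariant window
  set Z : Set ℂ := {z | ∃ w ∈ W, (z - p) ^ N = (w - p) ^ N ∨ (z - p) ^ N = c₀ * conj ((w - p) ^ N)}
    with hZ
  have hpowfin : ∀ c : ℂ, {z : ℂ | (z - p) ^ N = c}.Finite := by
    intro c
    have : {z : ℂ | (z - p) ^ N = c} ⊆ (fun y => y + p) '' ((Polynomial.nthRoots N c).toFinset : Set ℂ) := by
      intro z hz
      refine ⟨z - p, ?_, by ring⟩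
      simp only [mem_coe, Multiset.mem_toFinset]
      rw [Polynomial.mem_nthRoots hN0]
      exact hz
    exact (((Polynomial.nthRoots N c).toFinset.finite_toSet).image _).subset this
  have hZfin : Z.Finite := by
    have : Z ⊆ ⋃ w ∈ (W : Set ℂ), ({z : ℂ | (z - p) ^ N = (w - p) ^ N} ∪
        {z : ℂ | (z - p) ^ N = c₀ * conj ((w - p) ^ N)}) := by
      rintro z ⟨w, hw, h⟩
      simp only [Set.mem_iUnion]
      exact ⟨w, hw, h⟩
    exact (Set.Finite.biUnion W.finite_toSet fun w _ => (hpowfin _).union (hpowfin _)).subset this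
  have hWZ : ∀ w ∈ W, w ∈ Z := fun w hw => ⟨w, hw, Or.inl rfl⟩
  have hcc : ∀ x y : ℂ, x = c₀ * conj y → y = c₀ * conj x := by
    intro x y h
    rw [h, map_mul, Complex.conj_conj, ← mul_assoc, hc₀, one_mul]
  have hZinv : ∀ X ⊆ W, ∀ z, g X z ∈ Z ↔ z ∈ Z := by
    intro X hX z
    rcases htyp X hX with ⟨c, hc, hg⟩ | ⟨b, hb, hg⟩
    · have e : (g X z - p) ^ N = (z - p) ^ N := by
        rw [hg, show p + c * (z - p) - p = c * (z - p) by ring, mul_pow, hrotN X hX c hc hg, one_mul]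
      show (∃ w ∈ W, (g X z - p) ^ N = (w - p) ^ N ∨ (g X z - p) ^ N = c₀ * conj ((w - p) ^ N)) ↔ _
      rw [e]; rfl
    · have e : (g X z - p) ^ N = c₀ * conj ((z - p) ^ N) := by
        rw [hg, show p + b * conj (z - p) - p = b * conj (z - p) by ring, mul_pow,
          hc₀' X hX b hb hg, map_pow]
      constructor
      · rintro ⟨w, hw, h | h⟩
        · refine ⟨w, hw, Or.inr ?_⟩
          rw [e] at h
          exact hcc _ _ h.symm
        · refine ⟨w, hw, Or.inl ?_⟩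
          rw [e] at h
          have hc00 : c₀ ≠ 0 := by rintro rfl; simp at hc₀
          have := mul_left_cancel₀ hc00 h
          exact (starRingEnd ℂ).injective this
      · rintro ⟨w, hw, h | h⟩
        · refine ⟨w, hw, Or.inr ?_⟩
          rw [e, h]
        · refine ⟨w, hw, Or.inl ?_⟩
          rw [e]
          exact (hcc _ _ h).symm
  set f' : ℂ → ℤ := fun z => if z ∈ Z then f z else 0 with hf'
  have hC : Cube f' (fun _ => 0) W g := by
    refine ⟨H.iso, H.ne, fun X hX z => ?_, fun X _ z => rfl, ?_⟩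
    · have hs := H.sym X hX z
      have hi := hZinv X hX z
      unfold pl at hs ⊢
      simp only [hf']
      by_cases hz : z ∈ Z
      · rw [if_pos hz, if_pos (hi.2 hz)]; exact hs
      · have hgz : g X z ∉ Z := fun h => hz (hi.1 h)
        have n1 : z ∉ X := fun h => hz (hWZ z (hX h))
        have n2 : g X z ∉ X := fun h => hgz (hWZ _ (hX h))
        rw [if_neg hz, if_neg hgz, if_neg n1, if_neg n2]
    · refine hZfin.subset ?_
      intro z hz
      by_contra hcon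
      apply hz
      simp only [hf', if_neg hcon]
  obtain ⟨κ, hκ, hκW, -⟩ := PE hC hW
  obtain ⟨w, hw, hne⟩ := hadm κ hκ
  exact hne (hκW w hw)

theorem beta {f : ℂ → ℤ} {W : Finset ℂ} {g : Finset ℂ → Equiv.Perm ℂ} (H : Sys f W g)
    (hadm : ∀ κ, Ind κ → ∃ w ∈ W, κ w ≠ w) (hW : 19 ≤ W.card)
    (hNT : ∀ τ, τ ≠ 0 → ¬ Alm f (tr τ)) : False := by
  by_cases h3 : ∀ r, Dir r → Alm f r → r = 1
  · exact beta3 H hadm h3
  push Not at h3
  obtain ⟨r, hr, hAr, hr1⟩ := h3
  obtain ⟨p, a, ha, ha1, hR, hp⟩ := fixAll hNT hr hr1 hAr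
  have hpX : ∀ X ⊆ W, g X p = p := fun X hX => hp _ (H.iso X hX) (Alm.of_sym (H.sym X hX))
  by_cases h1 : ∃ (k : Equiv.Perm ℂ) (b : ℂ), ‖b‖ = 1 ∧ Rot p k b ∧ Alm f k ∧ ∀ n : ℤ, n ≠ 0 → b ^ n ≠ 1
  · obtain ⟨k, b, hb, hk, hA, hinf⟩ := h1
    exact beta1 H hadm hW hb hk hinf hA hpX
  · refine beta2 H hadm (by omega) hpX ?_
    intro r b hb hRb hA
    by_contra hcon
    push Not at hcon
    apply h1
    refine ⟨r, b, hb, hRb, hA, ?_⟩
    intro n hn e
    have hb0 : b ≠ 0 := by rintro rfl; simp at hb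
    apply hcon n.natAbs (Int.natAbs_pos.2 hn)
    rcases Int.natAbs_eq n with h | h
    · rw [h] at e
      rw [← zpow_natCast]; exact e
    · rw [h, zpow_neg, inv_eq_one] at e
      rw [← zpow_natCast]; exact e

end Pool.Agent.V11293.EXU
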