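import Mathlib

namespace Pool.Agent.V11293.EXU

open Finset Filter

/-- Smallest enclosing disc: centre `p`, radius `R`, and at most three points that force it. -/
theorem disc (Z : Finset ℂ) (hZ : Z.Nonempty) : ∃ (p : ℂ) (R : ℝ), (∀ z ∈ Z, ‖z - p‖ ≤ R) ∧
    ∃ T ⊆ Z, T.card ≤ 3 ∧ ∀ c : ℂ, ∃ z ∈ T, R ≤ ‖z - c‖ := by
  set F : ℂ → ℝ := fun c => Z.sup' hZ (fun z => ‖z - c‖) with hF
  have hcont : Continuous F := by
    refine Continuous.finset_sup'_apply hZ ?_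
    intro z _
    fun_prop
  obtain ⟨z₀, hz₀⟩ := hZ
  have hlim : Tendsto F (cocompact ℂ) atTop := by
    have h1 : Tendsto (fun c : ℂ => ‖c‖ - ‖z₀‖) (cocompact ℂ) atTop :=
      tendsto_atTop_add_const_right _ _ (tendsto_norm_cocompact_atTop)
    refine tendsto_atTop_mono (fun c => ?_) h1
    have h2 : ‖z₀ - c‖ ≤ F c := le_sup' (fun z => ‖z - c‖) hz₀
    have h3 : ‖c‖ - ‖z₀‖ ≤ ‖z₀ - c‖ := by
      rw [norm_sub_rev]; exact norm_sub_norm_le _ _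
    exact h3.trans h2
  obtain ⟨p, hp⟩ := hcont.exists_forall_le hlim
  refine ⟨p, F p, fun z hz => le_sup' (fun z => ‖z - p‖) hz, ?_⟩
  by_contra hcon
  push Not at hcon
  have hel : (⋂ z ∈ Z, {c : ℂ | ‖z - c‖ < F p}).Nonempty := by
    apply Convex.helly_theorem' (𝕜 := ℝ)
    · intro z _
      have : {c : ℂ | ‖z - c‖ < F p} = Metric.ball z (F p) := by
        ext c
        simp [Metric.mem_ball, dist_eq_norm, norm_sub_rev]
      rw [this]
      exact convex_ball z (F p)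
    · intro I hI hc
      rw [Complex.finrank_real_complex] at hc
      obtain ⟨c, hc2⟩ := hcon I hI hc
      refine ⟨c, ?_⟩
      simp only [Set.mem_iInter]
      intro z hz
      exact hc2 z hz
  obtain ⟨c, hc⟩ := hel
  simp only [Set.mem_iInter] at hc
  have h4 : F c < F p := by
    rw [hF]
    simp only
    rw [Finset.sup'_lt_iff]
    intro z hz
    exact hc z hz
  exact absurd (hp c) (not_le.2 h4)

theorem midpoint_norm (z p q : ℂ) : ‖z - (p + q) / 2‖ ^ 2 = (‖z - p‖ ^ 2 + ‖z - q‖ ^ 2) / 2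
    - ‖p - q‖ ^ 2 / 4 := by
  simp only [← Complex.normSq_eq_norm_sq, Complex.normSq_apply]
  simp only [Complex.sub_re, Complex.sub_im, Complex.div_ofNat_re, Complex.div_ofNat_im,
    Complex.add_re, Complex.add_im]
  ring

/-- The centre of the smallest enclosing disc is fixed by all symmetries of intermediate sets. -/
theorem CL (Z : Finset ℂ) (hZ : Z.Nonempty) : ∃ (p : ℂ), ∃ T ⊆ Z, T.card ≤ 3 ∧
    ∀ g : Equiv.Perm ℂ, (∀ x y, ‖g x - g y‖ = ‖x - y‖) → ∀ Z' : Set ℂ, (T : Set ℂ) ⊆ Z' →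
      Z' ⊆ Z → (∀ z, g z ∈ Z' → z ∈ Z') → (∀ z, z ∈ Z' → g z ∈ Z') → g p = p := by
  obtain ⟨p, R, hR, T, hT, hT3, hc⟩ := disc Z hZ
  refine ⟨p, T, hT, hT3, ?_⟩
  intro g hg Z' hTZ hZ' h1 h2
  have hb1 : ∀ z ∈ Z', ‖z - p‖ ≤ R := fun z hz => hR z (hZ' hz)
  have hb2 : ∀ z ∈ Z', ‖z - g p‖ ≤ R := by
    intro z hz
    obtain ⟨y, rfl⟩ := g.surjective z
    rw [hg]
    exact hb1 y (h1 y hz)
  obtain ⟨z, hz, hzR⟩ := hc ((p + g p) / 2)
  have hzZ : z ∈ Z' := hTZ hz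
  have e := midpoint_norm z p (g p)
  have e1 := hb1 z hzZ
  have e2 := hb2 z hzZ
  have hR0 : 0 ≤ R := (norm_nonneg _).trans e1
  have e3 : R ^ 2 ≤ ‖z - (p + g p) / 2‖ ^ 2 := pow_le_pow_left₀ hR0 hzR 2
  have e4 : ‖z - p‖ ^ 2 ≤ R ^ 2 := pow_le_pow_left₀ (norm_nonneg _) e1 2
  have e5 : ‖z - g p‖ ^ 2 ≤ R ^ 2 := pow_le_pow_left₀ (norm_nonneg _) e2 2
  have e6 : ‖p - g p‖ ^ 2 ≤ 0 := by linarith
  have e7 : ‖p - g p‖ = 0 := by
    have := sq_nonneg ‖p - g p‖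
    have h8 : ‖p - g p‖ ^ 2 = 0 := le_antisymm e6 this
    simpa using h8
  have := sub_eq_zero.1 (norm_eq_zero.1 e7)
  exact this.symm

end Pool.Agent.V11293.EXU
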