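import Pool.Agent.V11293.EXU.UBC

namespace Pool.Agent.V11293.EXU

open Finset ComplexConjugate Pool.Agent.V11293.EXT Filter

theorem DEP {f : ℂ → ℤ} {k r : Equiv.Perm ℂ} (hA : Alm f k) (hF : Fr k) (hr : Alm f r)
    (hc : Commute k r) (hfix : ∀ z, k z = z → r z = z) {z : ℂ} (hz : z ∈ U f k) :
    ∃ (m : ℕ) (n : ℤ), 0 < m ∧ (r ^ m) z = (k ^ n) z := by
  set S : Set ℂ := {z | f (k z) ≠ f z} with hS
  have hex : ∀ m : ℕ, ∃ j : ℤ, (k ^ j) ((r ^ m) z) ∈ S := by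
    intro m
    by_contra hcon
    push Not at hcon
    have hy : (r ^ m) z ∈ U f k := by
      refine (U_inv hA hF (hr.pow m) (Or.inl (hc.pow_right m)) ?_ z).1.2 hz
      intro z h; exact pow_fix (hfix z h) m
    set y := (r ^ m) z with hyd
    apply hy
    have h1 : ∀ n : ℕ, f ((k ^ n) y) = f y := by
      intro n
      induction n with
      | zero => simp
      | succ n ih =>
        have h2 := hcon (n : ℤ)
        simp only [hS, Set.mem_setOf_eq, not_not, zpow_natCast] at h2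
        rw [pow_succ', Equiv.Perm.mul_apply, h2, ih]
    have h1' : ∀ n : ℕ, f ((k⁻¹ ^ n) y) = f y := by
      intro n
      induction n with
      | zero => simp
      | succ n ih =>
        have h2 := hcon (-((n : ℤ) + 1))
        simp only [hS, Set.mem_setOf_eq, not_not] at h2
        have e1 : (k ^ (-((n : ℤ) + 1))) y = (k⁻¹ ^ (n + 1)) y := by
          rw [zpow_neg, ← inv_zpow]
          congr 1
        rw [e1] at h2
        rw [← h2, pow_succ', Equiv.Perm.mul_apply, aiv, ih]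
    rw [L_uniq hA hF (Eventually.of_forall h1), L_uniq hA.inv hF.inv (Eventually.of_forall h1')]
  choose j hj using hex
  have : Finite S := hA
  obtain ⟨m, m', hne, heq⟩ := Finite.exists_ne_map_eq_of_infinite
    (fun m : ℕ => (⟨(k ^ (j m)) ((r ^ m) z), hj m⟩ : S))
  simp only [Subtype.mk.injEq] at heq
  have main : ∀ m m' : ℕ, m' < m → (k ^ (j m)) ((r ^ m) z) = (k ^ (j m')) ((r ^ m') z) →
      ∃ (m : ℕ) (n : ℤ), 0 < m ∧ (r ^ m) z = (k ^ n) z := by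
    intro m m' hlt heq
    refine ⟨m - m', -j m + j m', by omega, ?_⟩
    have e1 : (r ^ m) z = (r ^ m') ((r ^ (m - m')) z) := by
      rw [← Equiv.Perm.mul_apply, ← pow_add]; congr 2; omega
    have c1 : ∀ (i : ℤ) (n : ℕ) (y : ℂ), (k ^ i) ((r ^ n) y) = (r ^ n) ((k ^ i) y) := by
      intro i n y
      rw [← Equiv.Perm.mul_apply, ← Equiv.Perm.mul_apply, ((hc.zpow_left i).pow_right n).eq]
    rw [e1, c1 (j m) m', c1 (j m') m'] at heq
    have h2 := (r ^ m').injective heq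
    rw [zpow_add, Equiv.Perm.mul_apply, ← h2, ← Equiv.Perm.mul_apply, ← zpow_add]
    simp
  rcases lt_or_gt_of_ne hne with h | h
  · exact main m' m h heq.symm
  · exact main m m' h heq

theorem Alm.pl {f : ℂ → ℤ} {k : Equiv.Perm ℂ} (h : Alm f k) (X : Finset ℂ) : Alm (pl f X) k := by
  have hsub : {z | EXT.pl f X (k z) ≠ EXT.pl f X z} ⊆ {z | f (k z) ≠ f z} ∪
      ((X : Set ℂ) ∪ k.symm '' (X : Set ℂ)) := by
    intro z hz
    by_contra hcon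
    simp only [Set.mem_union, not_or] at hcon
    obtain ⟨h1, h2, h3⟩ := hcon
    apply hz
    have h4 : k z ∉ X := fun h5 => h3 ⟨k z, h5, by simp⟩
    have h2' : z ∉ X := h2
    rw [pl_not h4, pl_not h2']
    by_contra h6; exact h1 h6
  exact (Set.Finite.union h ((X.finite_toSet).union ((X.finite_toSet).image _))).subset hsub

theorem L_pl {f : ℂ → ℤ} {k : Equiv.Perm ℂ} (hA : Alm f k) (hF : Fr k) (X : Finset ℂ) {z : ℂ}
    (hz : k z ≠ z) : L (pl f X) k z = L f k z := by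
  apply L_uniq (hA.pl X) hF
  filter_upwards [L_spec hA hF z, ev2 hF X.finite_toSet hz] with n h1 h2
  have h2' : (k ^ n) z ∉ X := h2
  rw [pl_not h2', h1]

theorem U_pl {f : ℂ → ℤ} {k : Equiv.Perm ℂ} (hA : Alm f k) (hF : Fr k) (X : Finset ℂ) {z : ℂ}
    (hz : z ∈ U f k) : z ∈ U (pl f X) k := by
  have hm := U_moved hA hF hz
  have hm' : k⁻¹ z ≠ z := by
    intro h; rw [Equiv.Perm.inv_eq_iff_eq] at h; exact hm h.symm
  show L (pl f X) k z ≠ L (pl f X) k⁻¹ z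
  rw [L_pl hA hF X hm, L_pl hA.inv hF.inv X hm']
  exact hz

theorem COUNT {f : ℂ → ℤ} {W : Finset ℂ} {g : Finset ℂ → Equiv.Perm ℂ} (H : Sys f W g)
    {k : Equiv.Perm ℂ} (hA : Alm f k) (hF : Fr k)
    (hc : ∀ X ⊆ W, k * g X = g X * k ∨ k * g X = g X * k⁻¹)
    (hfix : ∀ X ⊆ W, ∀ z, k z = z → g X z = z) (hadm : ∀ κ, Ind κ → ∃ w ∈ W, κ w ≠ w)
    (hW : 19 ≤ W.card) {Xb : Finset ℂ} (hXb : Xb ⊆ W) (hXb1 : Xb.card ≤ 1)
    (hb : k * g Xb = g Xb * k⁻¹)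
    (hone : ∀ w₁ ∈ W, ∀ w₂ ∈ W, w₁ ∉ Xb → w₂ ∉ Xb → w₁ ∈ U f k → w₂ ∈ U f k → w₁ ≠ w₂ →
      k * g (Xb ∪ {w₁}) = g (Xb ∪ {w₁}) * k → k * g (Xb ∪ {w₂}) = g (Xb ∪ {w₂}) * k → False)
    (hcomm : ∀ w₁ ∈ W, ∀ w₂ ∈ W, k * g (Xb ∪ {w₁}) = g (Xb ∪ {w₁}) * k⁻¹ →
      k * g (Xb ∪ {w₂}) = g (Xb ∪ {w₂}) * k⁻¹ →
      Commute ((g Xb)⁻¹ * g (Xb ∪ {w₁})) ((g Xb)⁻¹ * g (Xb ∪ {w₂})))
    (hdep : ∀ w ∈ W, w ∈ U f k → k * g (Xb ∪ {w}) = g (Xb ∪ {w}) * k⁻¹ →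
      ∃ (m : ℕ) (n : ℤ), 0 < m ∧ ((g Xb)⁻¹ * g (Xb ∪ {w})) ^ m = k ^ n) : False := by
  classical
  by_cases hV : 15 ≤ (W.filter (fun w => w ∉ U f k)).card
  · obtain ⟨κ, hκ, hκW⟩ := PF H hA hF hc hfix (V := W.filter (fun w => w ∉ U f k))
      (filter_subset _ _) hV (fun w hw => by simp [hw])
    obtain ⟨w, hw, hne⟩ := hadm κ hκ
    exact hne (hκW w hw)
  have hsum := Finset.card_filter_add_card_filter_not (s := W) (fun w => w ∉ U f k)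
  set T := (W.filter (fun w => ¬ (w ∉ U f k))) \ Xb with hT
  have hT4 : 4 ≤ T.card := by
    have := le_card_sdiff Xb (W.filter (fun w => ¬ (w ∉ U f k)))
    rw [← hT] at this
    omega
  set Tp := T.filter (fun w => k * g (Xb ∪ {w}) = g (Xb ∪ {w}) * k) with hTp
  have hmem : ∀ w ∈ T, w ∈ W ∧ w ∈ U f k ∧ w ∉ Xb := by
    intro w hw
    rw [hT, Finset.mem_sdiff, mem_filter, not_not] at hw
    exact ⟨hw.1.1, hw.1.2, hw.2⟩
  have hTp1 : Tp.card ≤ 1 := by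
    rw [card_le_one]
    intro a ha b hb'
    by_contra hne
    rw [hTp, mem_filter] at ha hb'
    obtain ⟨a1, a2, a3⟩ := hmem a ha.1
    obtain ⟨b1, b2, b3⟩ := hmem b hb'.1
    exact hone a a1 b b1 a3 b3 a2 b2 hne ha.2 hb'.2
  have h3 : 2 < (T \ Tp).card := by
    have := le_card_sdiff Tp T
    omega
  obtain ⟨w₁, m1, w₂, m2, w₃, m3, n12, n13, n23⟩ := two_lt_card.1 h3
  have hflip : ∀ w ∈ T \ Tp, k * g (Xb ∪ {w}) = g (Xb ∪ {w}) * k⁻¹ ∧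
      Flip (pl f Xb) k (g Xb) (g (Xb ∪ {w})) w := by
    intro w hw
    rw [Finset.mem_sdiff] at hw
    obtain ⟨hwW, hwU, hwX⟩ := hmem w hw.1
    have hsub : Xb ∪ {w} ⊆ W := union_subset hXb (by simpa using hwW)
    have hs : k * g (Xb ∪ {w}) = g (Xb ∪ {w}) * k⁻¹ := by
      rcases hc _ hsub with h | h
      · exact absurd (by rw [hTp, mem_filter]; exact ⟨hw.1, h⟩) hw.2
      · exact h
    refine ⟨hs, ⟨H.sym _ hXb, ?_, hb, hs, hfix _ hXb, hfix _ hsub, U_pl hA hF _ hwU⟩⟩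
    intro z
    rw [← pl_union (by rw [Finset.disjoint_singleton_right]; exact hwX)]
    exact H.sym _ hsub z
  obtain ⟨s1, F1⟩ := hflip w₁ m1
  obtain ⟨s2, F2⟩ := hflip w₂ m2
  obtain ⟨s3, F3⟩ := hflip w₃ m3
  obtain ⟨a1, b1, -⟩ := hmem w₁ (Finset.mem_sdiff.1 m1).1
  obtain ⟨a2, b2, -⟩ := hmem w₂ (Finset.mem_sdiff.1 m2).1
  obtain ⟨a3, b3, -⟩ := hmem w₃ (Finset.mem_sdiff.1 m3).1
  exact UBC F1 F2 F3 (hA.pl Xb) hF (hcomm _ a1 _ a2 s1 s2) (hcomm _ a2 _ a3 s2 s3)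
    (hcomm _ a1 _ a3 s1 s3) (hdep _ a1 b1 s1) (hdep _ a2 b2 s2) (hdep _ a3 b3 s3) n12 n23 n13

end Pool.Agent.V11293.EXU
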