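import Pool.Agent.V11293.EXU.LB

namespace Pool.Agent.V11293.EXU

open Finset ComplexConjugate Pool.Agent.V11293.EXT Filter

theorem pl_not {h : ℂ → ℤ} {X : Finset ℂ} {z : ℂ} (hz : z ∉ X) : pl h X z = h z := by
  unfold pl; rw [if_neg hz, add_zero]

theorem aiv (g : Equiv.Perm ℂ) (z : ℂ) : g (g⁻¹ z) = z := g.apply_symm_apply z
theorem iav (g : Equiv.Perm ℂ) (z : ℂ) : g⁻¹ (g z) = z := g.symm_apply_apply z

/-- `g` is an almost-symmetry of `f`. -/
def Alm (f : ℂ → ℤ) (g : Equiv.Perm ℂ) : Prop := {z | f (g z) ≠ f z}.Finite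

theorem Alm.mul {f : ℂ → ℤ} {g g' : Equiv.Perm ℂ} (h : Alm f g) (h' : Alm f g') :
    Alm f (g * g') := by
  have hsub : {z | f ((g * g') z) ≠ f z} ⊆ {z | f (g' z) ≠ f z} ∪ (g'.symm) '' {z | f (g z) ≠ f z} := by
    intro z hz
    by_contra hcon
    simp only [Set.mem_union, not_or] at hcon
    obtain ⟨h1, h2⟩ := hcon
    simp only [Set.mem_setOf_eq, not_not] at h1
    apply hz
    rw [Equiv.Perm.mul_apply, ← h1]
    by_contra h3
    exact h2 ⟨g' z, h3, by simp⟩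
  exact (h'.union (h.image _)).subset hsub

theorem Alm.inv {f : ℂ → ℤ} {g : Equiv.Perm ℂ} (h : Alm f g) : Alm f g⁻¹ := by
  have hsub : {z | f (g⁻¹ z) ≠ f z} ⊆ g '' {z | f (g z) ≠ f z} := by
    intro z hz
    refine ⟨g⁻¹ z, ?_, by simp⟩
    simp only [Set.mem_setOf_eq, aiv] at hz ⊢
    exact fun h => hz h.symm
  exact (h.image _).subset hsub

theorem Alm.one (f : ℂ → ℤ) : Alm f 1 := by
  unfold Alm; simp

theorem Alm.pow {f : ℂ → ℤ} {g : Equiv.Perm ℂ} (h : Alm f g) (n : ℕ) : Alm f (g ^ n) := by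
  induction n with
  | zero => rw [pow_zero]; exact Alm.one f
  | succ n ih => rw [pow_succ]; exact ih.mul h

theorem Alm.zpow {f : ℂ → ℤ} {g : Equiv.Perm ℂ} (h : Alm f g) (n : ℤ) : Alm f (g ^ n) := by
  cases n with
  | ofNat n => rw [Int.ofNat_eq_natCast, zpow_natCast]; exact h.pow n
  | negSucc n => rw [zpow_negSucc]; exact (h.pow _).inv

theorem Alm.of_sym {f : ℂ → ℤ} {g : Equiv.Perm ℂ} {X : Finset ℂ}
    (h : ∀ z, pl f X (g z) = pl f X z) : Alm f g := by
  have hsub : {z | f (g z) ≠ f z} ⊆ (X : Set ℂ) ∪ g.symm '' (X : Set ℂ) := by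
    intro z hz
    by_contra hcon
    simp only [Set.mem_union, not_or] at hcon
    obtain ⟨h1, h2⟩ := hcon
    apply hz
    have h3 := h z
    unfold pl at h3
    have h4 : g z ∉ X := fun h5 => h2 ⟨g z, h5, by simp⟩
    have h1' : z ∉ X := h1
    rw [if_neg h4, if_neg h1'] at h3
    simpa using h3
  exact ((X.finite_toSet).union ((X.finite_toSet).image _)).subset hsub

/-- moved points have infinite orbits -/
def Fr (k : Equiv.Perm ℂ) : Prop := ∀ z, k z ≠ z → ∀ n : ℤ, n ≠ 0 → (k ^ n) z ≠ z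

theorem Fr.inv {k : Equiv.Perm ℂ} (h : Fr k) : Fr k⁻¹ := by
  intro z hz n hn
  have hz' : k z ≠ z := by
    intro h1
    apply hz
    rw [Equiv.Perm.inv_eq_iff_eq]; exact h1.symm
  rw [inv_zpow, ← zpow_neg]
  exact h z hz' (-n) (by omega)

theorem Fr.inj {k : Equiv.Perm ℂ} (h : Fr k) {z : ℂ} (hz : k z ≠ z) {m n : ℤ}
    (hmn : (k ^ m) z = (k ^ n) z) : m = n := by
  by_contra hne
  apply h z hz (m - n) (by omega)
  have h1 : (k ^ (m - n)) z = (k ^ (-n)) ((k ^ m) z) := by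
    rw [← Equiv.Perm.mul_apply, ← zpow_add]; congr 2; ring
  rw [h1, hmn, ← Equiv.Perm.mul_apply, ← zpow_add]
  simp

theorem ev2 {k : Equiv.Perm ℂ} (h : Fr k) {E : Set ℂ} (hE : E.Finite) {z : ℂ} (hz : k z ≠ z) :
    ∀ᶠ n : ℕ in atTop, (k ^ n) z ∉ E := by
  have hinj : Function.Injective (fun n : ℕ => (k ^ n) z) := by
    intro a b hab
    have : (k ^ (a : ℤ)) z = (k ^ (b : ℤ)) z := by
      rw [zpow_natCast, zpow_natCast]; exact hab
    exact_mod_cast h.inj hz this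
  have h := hinj.tendsto_cofinite
  rw [Nat.cofinite_eq_atTop] at h
  exact h.eventually hE.eventually_cofinite_notMem

theorem pow_fix {k : Equiv.Perm ℂ} {z : ℂ} (hz : k z = z) (n : ℕ) : (k ^ n) z = z := by
  induction n with
  | zero => simp
  | succ n ih => rw [pow_succ, Equiv.Perm.mul_apply, hz, ih]

theorem lim_exists {f : ℂ → ℤ} {k : Equiv.Perm ℂ} (hA : Alm f k) (hF : Fr k) (z : ℂ) :
    ∃ v, ∀ᶠ n : ℕ in atTop, f ((k ^ n) z) = v := by
  by_cases hz : k z = z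
  · refine ⟨f z, Eventually.of_forall fun n => by rw [pow_fix hz]⟩
  · obtain ⟨K, hK⟩ := eventually_atTop.1 (ev2 hF hA hz)
    refine ⟨f ((k ^ K) z), eventually_atTop.2 ⟨K, ?_⟩⟩
    intro n hn
    induction n, hn using Nat.le_induction with
    | base => rfl
    | succ n hn ih =>
      have h1 := hK n hn
      simp only [Set.mem_setOf_eq, not_not] at h1
      rw [← ih, ← h1, pow_succ', Equiv.Perm.mul_apply]

/-- The eventual value of `f` along the forward orbit. -/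
noncomputable def L (f : ℂ → ℤ) (k : Equiv.Perm ℂ) (z : ℂ) : ℤ :=
  Classical.epsilon fun v => ∀ᶠ n : ℕ in atTop, f ((k ^ n) z) = v

theorem L_spec {f : ℂ → ℤ} {k : Equiv.Perm ℂ} (hA : Alm f k) (hF : Fr k) (z : ℂ) :
    ∀ᶠ n : ℕ in atTop, f ((k ^ n) z) = L f k z :=
  Classical.epsilon_spec (lim_exists hA hF z)

theorem L_uniq {f : ℂ → ℤ} {k : Equiv.Perm ℂ} (hA : Alm f k) (hF : Fr k) {z : ℂ} {v : ℤ}
    (h : ∀ᶠ n : ℕ in atTop, f ((k ^ n) z) = v) : L f k z = v := by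
  obtain ⟨n, h1, h2⟩ := ((L_spec hA hF z).and h).exists
  rw [← h1, h2]

theorem L_fix {f : ℂ → ℤ} {k : Equiv.Perm ℂ} (hA : Alm f k) (hF : Fr k) {z : ℂ} (hz : k z = z) :
    L f k z = f z :=
  L_uniq hA hF (Eventually.of_forall fun n => by rw [pow_fix hz])

theorem L_conj {f : ℂ → ℤ} {k k' g : Equiv.Perm ℂ} (hA : Alm f k) (hF : Fr k) (hA' : Alm f k')
    (hF' : Fr k') (hg : Alm f g) (hc : k * g = g * k') {z : ℂ} (hfix : k' z = z → g z = z) :
    L f k (g z) = L f k' z := by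
  have hpow : ∀ n : ℕ, (k ^ n) (g z) = g ((k' ^ n) z) := by
    intro n
    have : k ^ n * g = g * k' ^ n := by
      induction n with
      | zero => simp
      | succ n ih => rw [pow_succ, mul_assoc, hc, ← mul_assoc, ih, mul_assoc, pow_succ]
    calc (k ^ n) (g z) = (k ^ n * g) z := rfl
      _ = (g * k' ^ n) z := by rw [this]
      _ = g ((k' ^ n) z) := rfl
  apply L_uniq hA hF
  by_cases hz : k' z = z
  · refine Eventually.of_forall fun n => ?_
    rw [hpow, pow_fix hz, hfix hz, L_fix hA' hF' hz]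
  · filter_upwards [L_spec hA' hF' z, ev2 hF' hg hz] with n h1 h2
    simp only [Set.mem_setOf_eq, not_not] at h2
    rw [hpow, h2, h1]

/-- unbalanced points -/
def U (f : ℂ → ℤ) (k : Equiv.Perm ℂ) : Set ℂ := {z | L f k z ≠ L f k⁻¹ z}

theorem U_moved {f : ℂ → ℤ} {k : Equiv.Perm ℂ} (hA : Alm f k) (hF : Fr k) {z : ℂ}
    (hz : z ∈ U f k) : k z ≠ z := by
  intro h
  apply hz
  have h' : k⁻¹ z = z := by rw [Equiv.Perm.inv_eq_iff_eq]; exact h.symm
  rw [L_fix hA hF h, L_fix hA.inv hF.inv h']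

theorem fin_diff {f : ℂ → ℤ} {k : Equiv.Perm ℂ} (hA : Alm f k) (hF : Fr k) :
    {z | z ∉ U f k ∧ f z ≠ L f k z}.Finite := by
  set S : Set ℂ := {z | f (k z) ≠ f z} with hS
  have hSmoved : ∀ s ∈ S, k s ≠ s := by
    intro s hs h
    apply hs
    simp only [h]
  have hJ : ∀ s : ℂ, ∃ J : ℕ, s ∈ S → ∀ n, J ≤ n → (k⁻¹ ^ n) s ∉ S := by
    intro s
    by_cases hs : s ∈ S
    · have hm : k⁻¹ s ≠ s := by
        intro h
        rw [Equiv.Perm.inv_eq_iff_eq] at h
        exact hSmoved s hs h.symm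
      obtain ⟨J, hJ⟩ := eventually_atTop.1 (ev2 hF.inv hA hm)
      exact ⟨J, fun _ n hn => hJ n hn⟩
    · exact ⟨0, fun h => absurd h hs⟩
  choose J hJ using hJ
  have hfin : (⋃ s ∈ S, (fun n : ℕ => (k⁻¹ ^ n) s) '' {n : ℕ | n < J s}).Finite :=
    Set.Finite.biUnion hA fun s _ => (Set.finite_lt_nat _).image _
  refine hfin.subset ?_
  intro z hz
  obtain ⟨hzU, hzf⟩ := hz
  have hbal : L f k z = L f k⁻¹ z := by
    by_contra h; exact hzU h
  have ha : ∃ n : ℕ, (k ^ n) z ∈ S := by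
    by_contra hcon
    push Not at hcon
    have h1 : ∀ n : ℕ, f ((k ^ n) z) = f z := by
      intro n
      induction n with
      | zero => simp
      | succ n ih =>
        have h2 := hcon n
        simp only [hS, Set.mem_setOf_eq, not_not] at h2
        rw [pow_succ', Equiv.Perm.mul_apply, h2, ih]
    exact hzf (L_uniq hA hF (Eventually.of_forall h1)).symm
  have hb : ∃ n : ℕ, (k⁻¹ ^ (n + 1)) z ∈ S := by
    by_contra hcon
    push Not at hcon
    have h1 : ∀ n : ℕ, f ((k⁻¹ ^ n) z) = f z := by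
      intro n
      induction n with
      | zero => simp
      | succ n ih =>
        have h2 := hcon n
        simp only [hS, Set.mem_setOf_eq, not_not] at h2
        rw [← h2, pow_succ', Equiv.Perm.mul_apply, aiv, ih]
    apply hzf
    rw [hbal]
    exact (L_uniq hA.inv hF.inv (Eventually.of_forall h1)).symm
  obtain ⟨n, hn⟩ := ha
  obtain ⟨m, hm⟩ := hb
  simp only [Set.mem_iUnion]
  refine ⟨(k ^ n) z, hn, n, ?_, ?_⟩
  · simp only [Set.mem_setOf_eq]
    by_contra hlt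
    push Not at hlt
    have h3 := hJ _ hn (n + (m + 1)) (by omega)
    apply h3
    have h4 : (k⁻¹ ^ (n + (m + 1))) ((k ^ n) z) = (k⁻¹ ^ (m + 1)) z := by
      rw [← Equiv.Perm.mul_apply, add_comm n (m + 1), pow_add, mul_assoc, inv_pow k n]
      simp
    rw [h4]
    exact hm
  · simp only
    rw [← Equiv.Perm.mul_apply, inv_pow]
    simp

/-- From the sign property to the end-value identities. -/
theorem U_inv {f : ℂ → ℤ} {k g : Equiv.Perm ℂ} (hA : Alm f k) (hF : Fr k) (hg : Alm f g)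
    (hc : k * g = g * k ∨ k * g = g * k⁻¹) (hfix : ∀ z, k z = z → g z = z) (z : ℂ) :
    (g z ∈ U f k ↔ z ∈ U f k) ∧ (z ∉ U f k → L f k (g z) = L f k z) := by
  have hfix' : ∀ z, k⁻¹ z = z → g z = z := by
    intro z h
    rw [Equiv.Perm.inv_eq_iff_eq] at h
    exact hfix z h.symm
  rcases hc with hc | hc
  · have hc' : k⁻¹ * g = g * k⁻¹ := by
      rw [inv_mul_eq_iff_eq_mul, ← mul_assoc, hc, mul_assoc, mul_inv_cancel, mul_one]
    have e1 := L_conj hA hF hA hF hg hc (hfix z)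
    have e2 := L_conj hA.inv hF.inv hA.inv hF.inv hg hc' (hfix' z)
    refine ⟨?_, fun _ => e1⟩
    show L f k (g z) ≠ L f k⁻¹ (g z) ↔ L f k z ≠ L f k⁻¹ z
    rw [e1, e2]
  · have hc' : k⁻¹ * g = g * k := by
      rw [inv_mul_eq_iff_eq_mul, ← mul_assoc, hc, mul_assoc, inv_mul_cancel, mul_one]
    have e1 := L_conj hA hF hA.inv hF.inv hg hc (hfix' z)
    have e2 := L_conj hA.inv hF.inv hA hF hg hc' (hfix z)
    refine ⟨?_, fun h => ?_⟩
    · show L f k (g z) ≠ L f k⁻¹ (g z) ↔ L f k z ≠ L f k⁻¹ z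
      rw [e1, e2]; exact ne_comm
    · rw [e1]
      by_contra h2
      exact h (Ne.symm h2)

/-- The standing hypothesis for a choice of symmetries. -/
structure Sys (f : ℂ → ℤ) (W : Finset ℂ) (g : Finset ℂ → Equiv.Perm ℂ) : Prop where
  iso : ∀ X ⊆ W, Iso (g X)
  ne : ∀ X ⊆ W, g X ≠ 1
  sym : ∀ X ⊆ W, ∀ z, pl f X (g X z) = pl f X z

/-- Many balanced points: everything is on one line. -/
theorem PF {f : ℂ → ℤ} {W : Finset ℂ} {g : Finset ℂ → Equiv.Perm ℂ} (H : Sys f W g)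
    {k : Equiv.Perm ℂ} (hA : Alm f k) (hF : Fr k)
    (hc : ∀ X ⊆ W, k * g X = g X * k ∨ k * g X = g X * k⁻¹)
    (hfix : ∀ X ⊆ W, ∀ z, k z = z → g X z = z) {V : Finset ℂ} (hVW : V ⊆ W)
    (hV : 15 ≤ V.card) (hVU : ∀ w ∈ W, w ∈ V ↔ w ∉ U f k) : ∃ κ, Ind κ ∧ ∀ w ∈ W, κ w = w := by
  classical
  have cube : ∀ X₀ ⊆ W, (∀ w ∈ X₀, w ∈ U f k) →
      Cube (pl f X₀) (fun z => if z ∈ U f k then pl f X₀ z else L f k z) V
        (fun X => g (X₀ ∪ X)) := by
    intro X₀ hX₀ hX₀U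
    have hsub : ∀ X ⊆ V, X₀ ∪ X ⊆ W := fun X hX => union_subset hX₀ (hX.trans hVW)
    have hdis : ∀ X ⊆ V, Disjoint X₀ X := by
      intro X hX
      rw [Finset.disjoint_left]
      intro z hz hzX
      exact (hVU z (hX₀ hz)).1 (hX hzX) (hX₀U z hz)
    refine ⟨fun X hX => H.iso _ (hsub X hX), fun X hX => H.ne _ (hsub X hX), fun X hX z => ?_,
      fun X hX z => ?_, ?_⟩
    · rw [← pl_union (hdis X hX)]
      exact H.sym _ (hsub X hX) z
    · have hs := H.sym _ (hsub X hX)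
      obtain ⟨hU, hL⟩ := U_inv hA hF (Alm.of_sym hs) (hc _ (hsub X hX)) (hfix _ (hsub X hX)) z
      by_cases hz : z ∈ U f k
      · have hgz := hU.2 hz
        rw [if_pos hz, if_pos hgz]
        have h1 := hs z
        rw [pl_union (hdis X hX)] at h1
        have n1 : z ∉ X := fun h => (hVU z (hVW (hX h))).1 (hX h) hz
        have n2 : g (X₀ ∪ X) z ∉ X := fun h => (hVU _ (hVW (hX h))).1 (hX h) hgz
        rw [pl_not n1, pl_not n2] at h1
        exact h1
      · have hgz : g (X₀ ∪ X) z ∉ U f k := fun h => hz (hU.1 h)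
        rw [if_neg hz, if_neg hgz]
        exact hL hz
    · refine ((fin_diff hA hF).union X₀.finite_toSet).subset ?_
      intro z hz
      by_contra hcon
      simp only [Set.mem_union, not_or] at hcon
      obtain ⟨h1, h2⟩ := hcon
      apply hz
      by_cases hzU : z ∈ U f k
      · rw [if_pos hzU]
      · rw [if_neg hzU]
        have h3 : f z = L f k z := by
          by_contra h4; exact h1 ⟨hzU, h4⟩
        have h2' : z ∉ X₀ := h2
        rw [pl, if_neg h2', h3]; simp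
  obtain ⟨κ, hκ, hκV, hκf⟩ := PE (cube ∅ (by simp) (by simp)) hV
  have hκf' : ∀ z, f (κ z) = f z := by
    intro z
    have := hκf z
    simpa [pl] using this
  refine ⟨κ, hκ, ?_⟩
  intro w hw
  by_cases hwV : w ∈ V
  · exact hκV w hwV
  · have hwU : w ∈ U f k := by
      by_contra h; exact hwV ((hVU w hw).2 h)
    obtain ⟨κ', hκ', hκV', hκf''⟩ := PE (cube {w} (by simpa using hw) (by simpa using hwU)) hV
    obtain ⟨x, hx, y, hy, hxy⟩ := one_lt_card.1 (by omega : 1 < V.card)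
    have : κ' = κ := hκ'.eq hκ hxy (by rw [hκV' x hx, hκV x hx]) (by rw [hκV' y hy, hκV y hy])
    subst this
    have h1 := hκf'' w
    have h2 := hκf' w
    unfold pl at h1
    rw [h2] at h1
    by_contra hne
    simp [hne] at h1

end Pool.Agent.V11293.EXU
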