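import Pool.Agent.V11293.EXU.ML
import Pool.Agent.V11293.EXU.CL

namespace Pool.Agent.V11293.EXU

open Finset ComplexConjugate Pool.Agent.V11293.EXT

def Dir (g : Equiv.Perm ℂ) : Prop := ∃ a t : ℂ, ‖a‖ = 1 ∧ ∀ z, g z = a * z + t
def Ind (g : Equiv.Perm ℂ) : Prop := ∃ a t : ℂ, ‖a‖ = 1 ∧ ∀ z, g z = a * conj z + t
def Iso (g : Equiv.Perm ℂ) : Prop := Dir g ∨ Ind g

theorem Iso.norm {g : Equiv.Perm ℂ} (h : Iso g) (x y : ℂ) : ‖g x - g y‖ = ‖x - y‖ := by
  rcases h with ⟨a, t, ha, hg⟩ | ⟨a, t, ha, hg⟩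
  · rw [hg, hg, show a * x + t - (a * y + t) = a * (x - y) by ring, norm_mul, ha, one_mul]
  · rw [hg, hg, show a * conj x + t - (a * conj y + t) = a * conj (x - y) by
      rw [map_sub]; ring, norm_mul, ha, one_mul, Complex.norm_conj]

theorem Iso.typ {g : Equiv.Perm ℂ} (h : Iso g) (h1 : g ≠ 1) {p : ℂ} (hp : g p = p) : Typ p g := by
  rcases h with ⟨a, t, ha, hg⟩ | ⟨a, t, ha, hg⟩
  · left
    have ht : t = p - a * p := by
      have := hg p
      rw [hp] at this
      linear_combination -this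
    refine ⟨a, ha, ?_, fun z => by rw [hg, ht]; ring⟩
    rintro rfl
    apply h1
    ext z
    rw [hg, ht]
    simp
  · right
    have ht : t = p - a * conj p := by
      have := hg p
      rw [hp] at this
      linear_combination -this
    exact ⟨a, ha, fun z => by rw [hg, ht, map_sub]; ring⟩

theorem Ind.eq {g k : Equiv.Perm ℂ} (hg : Ind g) (hk : Ind k) {x y : ℂ} (hxy : x ≠ y)
    (hx : g x = k x) (hy : g y = k y) : g = k := by
  obtain ⟨a, t, ha, hg⟩ := hg
  obtain ⟨b, s, hb, hk⟩ := hk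
  rw [hg, hk] at hx hy
  have hab : a = b := by
    have h1 : (a - b) * conj (x - y) = 0 := by rw [map_sub]; linear_combination hx - hy
    have h2 : conj (x - y) ≠ 0 := (map_ne_zero _).2 (sub_ne_zero.2 hxy)
    have := (mul_eq_zero.1 h1).resolve_right h2
    linear_combination this
  subst hab
  have hts : t = s := by linear_combination hx
  subst hts
  ext z
  rw [hg, hk]

theorem pl_union {h : ℂ → ℤ} {Y X : Finset ℂ} (hd : Disjoint Y X) : pl h (Y ∪ X) = pl (pl h Y) X := by
  funext z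
  unfold pl
  by_cases h1 : z ∈ Y
  · have h2 : z ∉ X := Finset.disjoint_left.1 hd h1
    simp [h1, h2]
  · by_cases h2 : z ∈ X
    · simp [h1, h2]
    · simp [h1, h2]

/-- Data for a balanced cube. -/
structure Cube (f F : ℂ → ℤ) (V : Finset ℂ) (g : Finset ℂ → Equiv.Perm ℂ) : Prop where
  iso : ∀ X ⊆ V, Iso (g X)
  ne : ∀ X ⊆ V, g X ≠ 1
  sym : ∀ X ⊆ V, ∀ z, pl f X (g X z) = pl f X z
  inv : ∀ X ⊆ V, ∀ z, F (g X z) = F z
  fin : {z | f z ≠ F z}.Finite

theorem Cube.mono {f F : ℂ → ℤ} {V V' : Finset ℂ} {g : Finset ℂ → Equiv.Perm ℂ}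
    (h : Cube f F V g) (hV : V' ⊆ V) : Cube f F V' g :=
  ⟨fun X hX => h.iso X (hX.trans hV), fun X hX => h.ne X (hX.trans hV),
    fun X hX => h.sym X (hX.trans hV), fun X hX => h.inv X (hX.trans hV), h.fin⟩

theorem LB {f F : ℂ → ℤ} {V : Finset ℂ} {g : Finset ℂ → Equiv.Perm ℂ} (H : Cube f F V g)
    (hV : 11 ≤ V.card) : ∃ κ, Ind κ ∧ (∃ V' ⊆ V, V.card ≤ V'.card + 4 ∧ ∀ w ∈ V', κ w = w) ∧
      ∃ X ⊆ V, g X = κ := by
  set h : ℂ → ℤ := fun z => f z - F z with hh
  set S := H.fin.toFinset with hSd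
  have hS : ∀ z, h z ≠ 0 → z ∈ S := by
    intro z hz
    rw [hSd, Set.Finite.mem_toFinset]
    intro h1
    exact hz (by simp [hh, h1])
  have hS' : ∀ z, z ∈ S → h z ≠ 0 := by
    intro z hz
    rw [hSd, Set.Finite.mem_toFinset] at hz
    intro h1
    apply hz
    simp only [hh] at h1
    omega
  have hsym : ∀ X ⊆ V, ∀ z, pl h X (g X z) = pl h X z := by
    intro X hX z
    have h1 := H.sym X hX z
    have h2 := H.inv X hX z
    unfold pl at h1 ⊢
    simp only [hh]
    linarith
  set Xm := V.filter (fun w => h w ≠ -1) with hXm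
  have hVne : V.Nonempty := card_pos.1 (by omega)
  obtain ⟨p, T, hT, hT3, hp⟩ := CL (S ∪ V) (hVne.mono subset_union_right)
  set V' := V \ (insert p T) with hV'
  have hV'V : V' ⊆ V := sdiff_subset
  have hcard : V.card ≤ V'.card + 4 := by
    have h1 := le_card_sdiff (insert p T) V
    have h2 := card_insert_le p T
    rw [← hV'] at h1
    omega
  have hpV' : p ∉ V' := by
    rw [hV', mem_sdiff]; simp
  set Xb := Xm \ V' with hXb
  have hXbV : Xb ⊆ V := sdiff_subset.trans (filter_subset _ _)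
  have hdis : ∀ X ⊆ V', Disjoint Xb X := by
    intro X hX
    rw [Finset.disjoint_left]
    intro z hz hzX
    exact (mem_sdiff.1 hz).2 (hX hzX)
  have hfix : ∀ X ⊆ V', g (Xb ∪ X) p = p := by
    intro X hX
    have hsub : Xb ∪ X ⊆ V := union_subset hXbV (hX.trans hV'V)
    refine hp (g (Xb ∪ X)) (H.iso _ hsub).norm {z | pl h (Xb ∪ X) z ≠ 0} ?_ ?_ ?_ ?_
    · intro z hz
      have hzT : z ∈ T := hz
      have hzV' : z ∉ V' := by
        rw [hV', mem_sdiff]
        intro hcon
        exact hcon.2 (mem_insert_of_mem hzT)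
      have hzX : z ∉ X := fun h => hzV' (hX h)
      show pl h (Xb ∪ X) z ≠ 0
      unfold pl
      by_cases hzV : z ∈ V
      · by_cases hm : h z = -1
        · have : z ∉ Xb ∪ X := by
            rw [mem_union, not_or]
            refine ⟨?_, hzX⟩
            rw [hXb, mem_sdiff, hXm, mem_filter]
            intro hcon
            exact hcon.1.2 hm
          rw [if_neg this, hm]; norm_num
        · have : z ∈ Xb ∪ X := by
            rw [mem_union]
            left
            rw [hXb, mem_sdiff, hXm, mem_filter]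
            exact ⟨⟨hzV, hm⟩, hzV'⟩
          rw [if_pos this]
          intro hcon
          exact hm (by linarith)
      · have : z ∉ Xb ∪ X := fun hcon => hzV (hsub hcon)
        rw [if_neg this]
        have hzS : z ∈ S := by
          rcases mem_union.1 (hT hzT) with h1 | h1
          · exact h1
          · exact absurd h1 hzV
        have := hS' z hzS
        simpa using this
    · intro z hz
      have := pl_supp hS _ z hz
      rcases mem_union.1 this with h1 | h1
      · exact mem_union_left _ h1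
      · exact mem_union_right _ (hsub h1)
    · intro z hz
      have := hsym _ hsub z
      simp only [Set.mem_setOf_eq] at hz ⊢
      rwa [this] at hz
    · intro z hz
      have := hsym _ hsub z
      simp only [Set.mem_setOf_eq] at hz ⊢
      rwa [this]
  obtain ⟨a, ha, haV, X, hX, hgX⟩ := ML (h := pl h Xb) (S := S ∪ Xb) (pl_supp hS Xb) hpV'
    (by omega) (g := fun X => g (Xb ∪ X))
    (fun X hX => (H.iso _ (union_subset hXbV (hX.trans hV'V))).typ
      (H.ne _ (union_subset hXbV (hX.trans hV'V))) (hfix X hX))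
    (fun X hX z => by
      have := hsym _ (union_subset hXbV (hX.trans hV'V)) z
      rw [pl_union (hdis X hX)] at this
      exact this)
  refine ⟨g (Xb ∪ X), ⟨a, p - a * conj p, ha, fun z => ?_⟩, ⟨V', hV'V, hcard, fun w hw => ?_⟩,
    Xb ∪ X, union_subset hXbV (hX.trans hV'V), rfl⟩
  · have := hgX z
    rw [map_sub] at this
    linear_combination this
  · have h1 : g (Xb ∪ X) w - p = a * conj (w - p) := hgX w
    have h2 := haV w hw
    rw [← h2] at h1
    linear_combination h1

theorem pl_fix {f : ℂ → ℤ} {κ : Equiv.Perm ℂ} {X : Finset ℂ} (hX : ∀ w ∈ X, κ w = w)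
    (hs : ∀ z, pl f X (κ z) = pl f X z) : ∀ z, f (κ z) = f z := by
  intro z
  have h := hs z
  have hiff : κ z ∈ X ↔ z ∈ X := by
    constructor
    · intro h1
      have h2 := hX _ h1
      have h3 := κ.injective h2
      rwa [h3] at h1
    · intro h1
      rw [hX z h1]; exact h1
  unfold pl at h
  simp only [hiff] at h
  linarith

theorem LB' {f F : ℂ → ℤ} {V : Finset ℂ} {g : Finset ℂ → Equiv.Perm ℂ} (H : Cube f F V g)
    (hV : 11 ≤ V.card) {κ₀ : Equiv.Perm ℂ} (hκ : Ind κ₀) (hf : ∀ w ∈ V, κ₀ w = w) :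
    ∀ z, f (κ₀ z) = f z := by
  obtain ⟨κ, hκI, ⟨V', hV', hc, hw⟩, X, hX, hgX⟩ := LB H hV
  obtain ⟨x, hx, y, hy, hxy⟩ := one_lt_card.1 (by omega : 1 < V'.card)
  have : κ = κ₀ := hκI.eq hκ hxy (by rw [hw x hx, hf x (hV' hx)]) (by rw [hw y hy, hf y (hV' hy)])
  subst this
  refine pl_fix (fun w hwX => hf w (hX hwX)) (X := X) ?_
  intro z
  have := H.sym X hX z
  rwa [hgX] at this

theorem PE {f F : ℂ → ℤ} {V : Finset ℂ} {g : Finset ℂ → Equiv.Perm ℂ} (H : Cube f F V g)
    (hV : 15 ≤ V.card) : ∃ κ, Ind κ ∧ (∀ w ∈ V, κ w = w) ∧ ∀ z, f (κ z) = f z := by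
  obtain ⟨κ, hκI, ⟨V', hV', hc, hw⟩, -⟩ := LB H (by omega)
  have h11 : 11 ≤ V'.card := by omega
  have hf := LB' (H.mono hV') h11 hκI hw
  refine ⟨κ, hκI, ?_, hf⟩
  intro q hq
  by_cases hqV : q ∈ V'
  · exact hw q hqV
  have Hq : Cube (pl f {q}) F V' (fun X => g ({q} ∪ X)) := by
    have hsub : ∀ X ⊆ V', {q} ∪ X ⊆ V := fun X hX =>
      union_subset (by simpa using hq) (hX.trans hV')
    refine ⟨fun X hX => H.iso _ (hsub X hX), fun X hX => H.ne _ (hsub X hX), fun X hX z => ?_,
      fun X hX => H.inv _ (hsub X hX), ?_⟩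
    · rw [← pl_union]
      · exact H.sym _ (hsub X hX) z
      · rw [Finset.disjoint_singleton_left]
        exact fun h => hqV (hX h)
    · refine (H.fin.union (Set.finite_singleton q)).subset ?_
      intro z hz
      by_contra hcon
      simp only [Set.mem_union, Set.mem_setOf_eq, Set.mem_singleton_iff, not_or, not_not] at hcon
      apply hz
      unfold pl
      rw [if_neg (by simpa using hcon.2), hcon.1]
      simp
  have h1 := LB' Hq h11 hκI hw q
  have h2 := hf q
  unfold pl at h1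
  rw [h2] at h1
  by_contra hne
  simp [hne] at h1

end Pool.Agent.V11293.EXU
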