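import Pool.Agent.V11293.EXU.Transfer

namespace Pool.Agent.V11293.EXU

open ComplexConjugate

noncomputable def ζ : ℂ := Complex.exp (2 * Real.pi * Complex.I / 5)

theorem ζ_prim : IsPrimitiveRoot ζ 5 := by
  have := Complex.isPrimitiveRoot_exp 5 (by norm_num)
  exact this

theorem ζ_norm : ‖ζ‖ = 1 := ζ_prim.norm'_eq_one (by norm_num)

theorem ζ_conj : ζ * conj ζ = 1 := unit_mul_conj ζ_norm

theorem ζ_ne_conj : conj ζ ≠ ζ := by
  intro h
  have h1 := ζ_conj
  rw [h] at h1
  have h2 : ζ ^ 2 = 1 := by rw [pow_two]; exact h1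
  have h3 := ζ_prim.dvd_of_pow_eq_one 2 h2
  norm_num at h3

theorem ζ_refl (j i : Fin 5) : ζ ^ (j : ℕ) * conj (ζ ^ (i : ℕ)) = ζ ^ ((j - i : Fin 5) : ℕ) := by
  have h : ((j - i : Fin 5) : ℕ) + (i : ℕ) = j ∨ ((j - i : Fin 5) : ℕ) + (i : ℕ) = j + 5 := by
    revert j i; decide
  have hc : ζ ^ (i : ℕ) * conj (ζ ^ (i : ℕ)) = 1 := by
    rw [map_pow, ← mul_pow, ζ_conj, one_pow]
  have h5 : ζ ^ (j : ℕ) = ζ ^ ((j - i : Fin 5) : ℕ) * ζ ^ (i : ℕ) := by
    rw [← pow_add]
    rcases h with h | h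
    · rw [h]
    · rw [h, pow_add, ζ_prim.pow_eq_one, mul_one]
  rw [h5, mul_assoc, hc, mul_one]

/-- the pentagon and its centre -/
noncomputable def pc : Option (Fin 5) → ℂ
  | none => 0
  | some i => ζ ^ (i : ℕ)

theorem pc_inj : Function.Injective pc := by
  intro a b h
  have hz : ζ ≠ 0 := ζ_prim.ne_zero (by norm_num)
  cases a with
  | none =>
    cases b with
    | none => rfl
    | some j => exact absurd h.symm (pow_ne_zero _ hz)
  | some i =>
    cases b with
    | none => exact absurd h (pow_ne_zero _ hz)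
    | some j =>
      have := ζ_prim.pow_inj i.2 j.2 h
      rw [Fin.ext this]

def W6 : Set Pl := Set.range (fun a => φ.symm (pc a))

theorem W6_card : W6.encard = 6 := by
  have hinj : Function.Injective (fun a => φ.symm (pc a)) := φ.symm.injective.comp pc_inj
  unfold W6
  rw [← Set.image_univ, hinj.encard_image, Set.encard_univ]
  simp

theorem W6_adm (g : Equiv.Perm Pl) (hg : Isometry g) (h : ∀ w ∈ W6, g w = w) : g = 1 := by
  by_contra hne
  have hfix : ∀ a, tc g (pc a) = pc a := by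
    intro a
    rw [tc_apply, h _ ⟨a, rfl⟩, IsometryEquiv.apply_symm_apply]
  have h0 := hfix none
  have h1 := hfix (some 0)
  have h2 := hfix (some 1)
  simp only [pc, Fin.val_zero, pow_zero, Fin.val_one, pow_one] at h0 h1 h2
  have hn := tc_ne hne
  rcases tc_iso hg with ⟨a, t, ha, hh⟩ | ⟨a, t, ha, hh⟩
  · apply hn
    rw [hh] at h0 h1
    have ht : t = 0 := by linear_combination h0
    have ha1 : a = 1 := by linear_combination h1 - ht
    apply Equiv.ext
    intro z
    rw [hh, ht, ha1]; simp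
  · rw [hh] at h0 h1 h2
    simp only [map_zero, mul_zero, zero_add, map_one, mul_one] at h0 h1
    rw [h0, add_zero] at h1
    rw [h0, h1] at h2
    apply ζ_ne_conj
    linear_combination h2

/-- the reflection `z ↦ ζ ^ j * conj z` -/
noncomputable def rf (j : Fin 5) : Equiv.Perm ℂ where
  toFun z := ζ ^ (j : ℕ) * conj z
  invFun z := ζ ^ (j : ℕ) * conj z
  left_inv z := by
    have hc : ζ ^ (j : ℕ) * conj (ζ ^ (j : ℕ)) = 1 := by
      rw [map_pow, ← mul_pow, ζ_conj, one_pow]
    simp only [map_mul, Complex.conj_conj]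
    linear_combination z * hc
  right_inv z := by
    have hc : ζ ^ (j : ℕ) * conj (ζ ^ (j : ℕ)) = 1 := by
      rw [map_pow, ← mul_pow, ζ_conj, one_pow]
    simp only [map_mul, Complex.conj_conj]
    linear_combination z * hc

theorem rf_ind (j : Fin 5) : Ind (rf j) :=
  ⟨ζ ^ (j : ℕ), 0, by rw [norm_pow, ζ_norm, one_pow], fun z => by
    show ζ ^ (j : ℕ) * conj z = _
    ring⟩

theorem sym5 (S : Fin 5 → Bool) : ∃ j : Fin 5, ∀ i, S (j - i) = S i := by
  revert S; decide

theorem lower_core : ¬ ∀ c : {x // x ∉ W6} → Fin 2, ∃ c' : Pl → Fin 2,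
    (∀ x : {x // x ∉ W6}, c' x = c x) ∧
      ∀ g : Equiv.Perm Pl, Isometry g → (∀ x, c' (g x) = c' x) → g = 1 := by
  intro h
  obtain ⟨c', hc', hd⟩ := h (fun _ => 0)
  obtain ⟨j, hj⟩ := sym5 (fun i => decide (c' (φ.symm (pc (some i))) = 1))
  have h2 : ∀ x : Fin 2, x = 0 ∨ x = 1 := by decide
  have hval : ∀ i : Fin 5, c' (φ.symm (pc (some (j - i)))) = c' (φ.symm (pc (some i))) := by
    intro i
    have := hj i
    simp only [decide_eq_decide] at this
    rcases h2 (c' (φ.symm (pc (some (j - i))))) with h3 | h3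
    · rcases h2 (c' (φ.symm (pc (some i)))) with h4 | h4
      · rw [h3, h4]
      · rw [this.2 h4, h4]
    · rw [h3, this.1 h3]
  have hrf : ∀ i : Fin 5, rf j (pc (some i)) = pc (some (j - i)) := fun i => ζ_refl j i
  have hrf0 : rf j (pc none) = pc none := by
    show ζ ^ (j : ℕ) * conj 0 = 0
    simp
  have hW : ∀ a, ∃ b, rf j (pc a) = pc b := by
    intro a
    cases a with
    | none => exact ⟨none, hrf0⟩
    | some i => exact ⟨some (j - i), hrf i⟩
  have hinvol : ∀ z, rf j (rf j z) = z := (rf j).left_inv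
  have := hd (fc (rf j)) (φ.symm.isometry.comp ((isometry_of_ind (rf_ind j)).comp φ.isometry)) (by
    intro v
    rw [fc_apply]
    by_cases hv : v ∈ W6
    · obtain ⟨a, rfl⟩ := hv
      simp only [IsometryEquiv.apply_symm_apply]
      cases a with
      | none => rw [hrf0]
      | some i => rw [hrf, hval]
    · have hv2 : φ.symm (rf j (φ v)) ∉ W6 := by
        rintro ⟨a, ha⟩
        apply hv
        have h5 := φ.symm.injective ha
        obtain ⟨b, hb⟩ := hW a
        refine ⟨b, ?_⟩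
        simp only
        rw [← hb, h5, hinvol, IsometryEquiv.symm_apply_apply]
      rw [hc' ⟨_, hv⟩, hc' ⟨_, hv2⟩])
  apply ind_ne_one (rf_ind j)
  apply Equiv.ext
  intro z
  have h6 := congrArg (fun q : Equiv.Perm Pl => q (φ.symm z)) this
  simp only [fc_apply, IsometryEquiv.apply_symm_apply, Equiv.Perm.one_apply] at h6
  exact φ.symm.injective h6

end Pool.Agent.V11293.EXU
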