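import Pool.Agent.V11293.EXT.Core

namespace Pool.Agent.V11293.EXU

open Finset ComplexConjugate Filter Pool.Agent.V11293.EXT

theorem mom_perm {u : ℂ → ℤ} {g : Equiv.Perm ℂ} (hu : ∀ z, u (g z) = u z) (φ : ℂ → ℂ) :
    mom u φ = mom u (fun z => φ (g z)) := by
  unfold mom
  have h := finsum_comp_equiv g (f := fun z => (u z : ℂ) * φ z)
  rw [← h]
  apply finsum_congr
  intro z
  show (u (g z) : ℂ) * φ (g z) = _
  rw [hu]

theorem mom_conj {u : ℂ → ℤ} {S : Finset ℂ} (hS : ∀ z, u z ≠ 0 → z ∈ S) (φ : ℂ → ℂ) :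
    conj (mom u φ) = mom u (fun z => conj (φ z)) := by
  rw [mom_eq hS, mom_eq hS, map_sum]
  exact sum_congr rfl fun z _ => by simp

/-- radial moment functions -/
noncomputable def e1 (p : ℂ) (r : ℝ) : ℂ → ℂ := fun z => if ‖z - p‖ = r then z - p else 0
noncomputable def e2 (p : ℂ) (r : ℝ) : ℂ → ℂ := fun z => if ‖z - p‖ = r then (z - p) ^ 2 else 0

theorem pl_supp {h : ℂ → ℤ} {S : Finset ℂ} (hS : ∀ z, h z ≠ 0 → z ∈ S) (X : Finset ℂ) :
    ∀ z, pl h X z ≠ 0 → z ∈ S ∪ X := by
  intro z hz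
  rw [mem_union]
  by_contra hcon
  push Not at hcon
  apply hz
  unfold pl
  rw [if_neg hcon.2]
  by_contra h2
  exact hcon.1 (hS z (by simpa using h2))

theorem rot_zero {u : ℂ → ℤ} {S : Finset ℂ} (hS : ∀ z, u z ≠ 0 → z ∈ S) {g : Equiv.Perm ℂ}
    (hu : ∀ z, u (g z) = u z) {p a : ℂ} (ha : ‖a‖ = 1) (ha1 : a ≠ 1)
    (hg : ∀ z, g z - p = a * (z - p)) (r : ℝ) : mom u (e1 p r) = 0 := by
  have h := mom_perm hu (e1 p r)
  have h2 : (fun z => e1 p r (g z)) = fun z => a * e1 p r z := by
    funext z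
    unfold e1
    rw [hg, norm_mul, ha, one_mul]
    split_ifs <;> simp
  rw [h2, mom_smul hS] at h
  have h3 : (1 - a) * mom u (e1 p r) = 0 := by linear_combination h
  exact (mul_eq_zero.1 h3).resolve_left (sub_ne_zero.2 (Ne.symm ha1))

theorem mir1 {u : ℂ → ℤ} {S : Finset ℂ} (hS : ∀ z, u z ≠ 0 → z ∈ S) {g : Equiv.Perm ℂ}
    (hu : ∀ z, u (g z) = u z) {p a : ℂ} (ha : ‖a‖ = 1)
    (hg : ∀ z, g z - p = a * conj (z - p)) (r : ℝ) :
    mom u (e1 p r) = a * conj (mom u (e1 p r)) := by
  have h := mom_perm hu (e1 p r)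
  have h2 : (fun z => e1 p r (g z)) = fun z => a * conj (e1 p r z) := by
    funext z
    unfold e1
    rw [hg, norm_mul, ha, one_mul, Complex.norm_conj]
    split_ifs <;> simp
  rw [h2, mom_smul hS, ← mom_conj hS] at h
  exact h

theorem mir2 {u : ℂ → ℤ} {S : Finset ℂ} (hS : ∀ z, u z ≠ 0 → z ∈ S) {g : Equiv.Perm ℂ}
    (hu : ∀ z, u (g z) = u z) {p a : ℂ} (ha : ‖a‖ = 1)
    (hg : ∀ z, g z - p = a * conj (z - p)) (r : ℝ) :
    mom u (e2 p r) = a ^ 2 * conj (mom u (e2 p r)) := by
  have h := mom_perm hu (e2 p r)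
  have h2 : (fun z => e2 p r (g z)) = fun z => a ^ 2 * conj (e2 p r z) := by
    funext z
    unfold e2
    rw [hg, norm_mul, ha, one_mul, Complex.norm_conj]
    split_ifs
    · simp; ring
    · simp
  rw [h2, mom_smul hS, ← mom_conj hS] at h
  exact h

/-- The type hypothesis: `g` is a nontrivial rotation about `p` or a reflection in a line
through `p`. -/
def Typ (p : ℂ) (g : Equiv.Perm ℂ) : Prop :=
  (∃ a : ℂ, ‖a‖ = 1 ∧ a ≠ 1 ∧ ∀ z, g z - p = a * (z - p)) ∨
    (∃ a : ℂ, ‖a‖ = 1 ∧ ∀ z, g z - p = a * conj (z - p))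

theorem quad {u : ℂ → ℤ} {S : Finset ℂ} (hS : ∀ z, u z ≠ 0 → z ∈ S) {g : Equiv.Perm ℂ}
    (hu : ∀ z, u (g z) = u z) {p : ℂ} (hg : Typ p g) (r r' : ℝ) :
    mom u (e1 p r) * conj (mom u (e1 p r')) = conj (mom u (e1 p r)) * mom u (e1 p r') := by
  rcases hg with ⟨a, ha, ha1, hg⟩ | ⟨a, ha, hg⟩
  · rw [rot_zero hS hu ha ha1 hg r, rot_zero hS hu ha ha1 hg r']
    simp
  · have h1 := mir1 hS hu ha hg r
    have h2 := mir1 hS hu ha hg r'
    linear_combination (conj (mom u (e1 p r'))) * h1 - (conj (mom u (e1 p r))) * h2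

theorem cub {u : ℂ → ℤ} {S : Finset ℂ} (hS : ∀ z, u z ≠ 0 → z ∈ S) {g : Equiv.Perm ℂ}
    (hu : ∀ z, u (g z) = u z) {p : ℂ} (hg : Typ p g) (r : ℝ) :
    mom u (e2 p r) * conj (mom u (e1 p r)) ^ 2 = conj (mom u (e2 p r)) * mom u (e1 p r) ^ 2 := by
  rcases hg with ⟨a, ha, ha1, hg⟩ | ⟨a, ha, hg⟩
  · rw [rot_zero hS hu ha ha1 hg r]
    simp
  · have h1 := mir1 hS hu ha hg r
    have h2 := mir2 hS hu ha hg r
    have haa : a * conj a = 1 := by
      rw [Complex.mul_conj, Complex.normSq_eq_norm_sq, ha]; simp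
    linear_combination (conj (mom u (e1 p r))) ^ 2 * h2
      - conj (mom u (e2 p r)) * (mom u (e1 p r) + a * conj (mom u (e1 p r))) * h1

theorem ML {h : ℂ → ℤ} {S : Finset ℂ} (hS : ∀ z, h z ≠ 0 → z ∈ S) {p : ℂ} {V : Finset ℂ}
    (hpV : p ∉ V) (hV : 7 ≤ V.card) {g : Finset ℂ → Equiv.Perm ℂ}
    (hg : ∀ X ⊆ V, Typ p (g X)) (hs : ∀ X ⊆ V, ∀ z, pl h X (g X z) = pl h X z) :
    ∃ a : ℂ, ‖a‖ = 1 ∧ (∀ w ∈ V, w - p = a * conj (w - p)) ∧
      ∃ X ⊆ V, ∀ z, g X z - p = a * conj (z - p) := by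
  have hne : ∀ w ∈ V, w - p ≠ 0 := fun w hw h0 => hpV (by rwa [sub_eq_zero.1 h0] at hw)
  have Q : ∀ X ⊆ V, ∀ r r' : ℝ, mom (pl h X) (e1 p r) * conj (mom (pl h X) (e1 p r'))
      = conj (mom (pl h X) (e1 p r)) * mom (pl h X) (e1 p r') :=
    fun X hX r r' => quad (pl_supp hS X) (hs X hX) (hg X hX) r r'
  have C : ∀ X ⊆ V, ∀ r : ℝ, mom (pl h X) (e2 p r) * conj (mom (pl h X) (e1 p r)) ^ 2
      = conj (mom (pl h X) (e2 p r)) * mom (pl h X) (e1 p r) ^ 2 :=
    fun X hX r => cub (pl_supp hS X) (hs X hX) (hg X hX) r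
  -- star property, for X = ∅ and singletons
  have star0 : ∀ w ∈ V, ∀ r', r' ≠ ‖w - p‖ →
      (w - p) * conj (mom h (e1 p r')) = conj (w - p) * mom h (e1 p r') := by
    intro w hw r' hr
    have q0 := Q ∅ (by simp) ‖w - p‖ r'
    have q1 := Q {w} (by simpa using hw) ‖w - p‖ r'
    simp only [mom_pl hS, sum_empty, sum_singleton, add_zero] at q0 q1
    have f1 : e1 p ‖w - p‖ w = w - p := by simp [e1]
    have f2 : e1 p r' w = 0 := by simp [e1, Ne.symm hr]
    rw [f1, f2] at q1
    simp only [map_add, add_zero] at q1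
    linear_combination q1 - q0
  have star1 : ∀ w ∈ V, ∀ w' ∈ V, ‖w' - p‖ ≠ ‖w - p‖ →
      (w - p) * conj (w' - p) = conj (w - p) * (w' - p) := by
    intro w hw w' hw' hr
    have hww : w ≠ w' := by rintro rfl; exact hr rfl
    have q0 := Q {w'} (by simpa using hw') ‖w - p‖ ‖w' - p‖
    have q1 := Q {w, w'} (by intro x; simp; rintro (rfl | rfl) <;> assumption) ‖w - p‖ ‖w' - p‖
    simp only [mom_pl hS, sum_pair hww, sum_singleton] at q0 q1
    have f1 : e1 p ‖w - p‖ w = w - p := by simp [e1]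
    have f2 : e1 p ‖w' - p‖ w = 0 := by simp [e1, Ne.symm hr]
    have f3 : e1 p ‖w - p‖ w' = 0 := by simp [e1, hr]
    have f4 : e1 p ‖w' - p‖ w' = w' - p := by simp [e1]
    rw [f1, f2, f3, f4] at q1
    rw [f3, f4] at q0
    have q2 := star0 w hw ‖w' - p‖ hr
    simp only [map_add, add_zero, zero_add] at q0 q1
    linear_combination q1 - q0 - q2
  by_cases hall : ∃ w₁ ∈ V, ∃ w₂ ∈ V, ‖w₂ - p‖ ≠ ‖w₁ - p‖
  · obtain ⟨w₁, h1, w₂, h2, h12⟩ := hall
    set y₁ := w₁ - p with hy1
    set y₂ := w₂ - p with hy2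
    have hy1n : y₁ ≠ 0 := hne w₁ h1
    have hy2n : y₂ ≠ 0 := hne w₂ h2
    have hcy1 : conj y₁ ≠ 0 := (map_ne_zero _).2 hy1n
    have hcy2 : conj y₂ ≠ 0 := (map_ne_zero _).2 hy2n
    set a := y₁ / conj y₁ with ha
    have han : ‖a‖ = 1 := by
      rw [ha, norm_div, Complex.norm_conj, div_self]
      exact (norm_ne_zero_iff).2 hy1n
    have hy1a : y₁ = a * conj y₁ := by rw [ha]; field_simp
    have hy2a : y₂ = a * conj y₂ := by
      have := star1 w₁ h1 w₂ h2 h12
      rw [ha]; field_simp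
      linear_combination -this
    have hVa : ∀ w ∈ V, w - p = a * conj (w - p) := by
      intro w hw
      by_cases hr : ‖w - p‖ = ‖w₁ - p‖
      · have hr2 : ‖w - p‖ ≠ ‖w₂ - p‖ := by rw [hr]; exact Ne.symm h12
        have := star1 w₂ h2 w hw hr2
        apply mul_right_cancel₀ hcy2
        have h3 : (w - p) * conj y₂ = y₂ * conj (w - p) := by linear_combination -this
        rw [h3]
        nth_rewrite 1 [hy2a]
        ring
      · have := star1 w₁ h1 w hw hr
        apply mul_right_cancel₀ hcy1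
        have h3 : (w - p) * conj y₁ = y₁ * conj (w - p) := by linear_combination -this
        rw [h3]
        nth_rewrite 1 [hy1a]
        ring
    refine ⟨a, han, hVa, ?_⟩
    have hM0 : mom h (e1 p ‖w₁ - p‖) = a * conj (mom h (e1 p ‖w₁ - p‖)) := by
      have := star0 w₂ h2 ‖w₁ - p‖ (Ne.symm h12)
      apply mul_right_cancel₀ hcy2
      have h3 : mom h (e1 p ‖w₁ - p‖) * conj y₂ = y₂ * conj (mom h (e1 p ‖w₁ - p‖)) := by
        linear_combination -this
      rw [h3]
      nth_rewrite 1 [hy2a]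
      ring
    have fin : ∀ X ⊆ V, mom (pl h X) (e1 p ‖w₁ - p‖) ≠ 0 →
        mom (pl h X) (e1 p ‖w₁ - p‖) = a * conj (mom (pl h X) (e1 p ‖w₁ - p‖)) →
        ∃ X ⊆ V, ∀ z, g X z - p = a * conj (z - p) := by
      intro X hX hn he
      refine ⟨X, hX, ?_⟩
      rcases hg X hX with ⟨b, hb, hb1, hgb⟩ | ⟨b, hb, hgb⟩
      · exact absurd (rot_zero (pl_supp hS X) (hs X hX) hb hb1 hgb _) hn
      · have h3 := mir1 (pl_supp hS X) (hs X hX) hb hgb ‖w₁ - p‖
        have h4 : a = b := by
          apply mul_right_cancel₀ ((map_ne_zero (starRingEnd ℂ)).2 hn)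
          rw [← he, ← h3]
        rw [h4]; exact hgb
    by_cases h0 : mom h (e1 p ‖w₁ - p‖) = 0
    · refine fin {w₁} (by simpa using h1) ?_ ?_
      · rw [mom_pl hS, h0, sum_singleton]
        simp only [e1, if_true, zero_add]
        exact hy1n
      · rw [mom_pl hS, h0, sum_singleton]
        simp only [e1, if_true, zero_add]
        exact hy1a
    · refine fin ∅ (by simp) ?_ ?_
      · rw [mom_pl hS, sum_empty, add_zero]; exact h0
      · rw [mom_pl hS, sum_empty, add_zero]; exact hM0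
  · exfalso
    push Not at hall
    obtain ⟨w₀, hw₀⟩ : V.Nonempty := card_pos.1 (by omega)
    set r := ‖w₀ - p‖ with hr
    have hrad : ∀ w ∈ V, ‖w - p‖ = r := fun w hw => hall w₀ hw₀ w hw
    have iso : ∀ a ∈ V, ∀ b ∈ V, ∀ c ∈ V, a ≠ b → a ≠ c → b ≠ c →
        ((a - p) ^ 2 - (b - p) * (c - p)) * ((b - p) ^ 2 - (a - p) * (c - p)) *
          ((c - p) ^ 2 - (a - p) * (b - p)) = 0 := by
      intro a ha b hb c hc hab hac hbc
      have q0 := C ∅ (by simp) r
      have qa := C {a} (by simpa using ha) r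
      have qb := C {b} (by simpa using hb) r
      have qc := C {c} (by simpa using hc) r
      have qab := C {a, b} (by intro x; simp; rintro (rfl | rfl) <;> assumption) r
      have qac := C {a, c} (by intro x; simp; rintro (rfl | rfl) <;> assumption) r
      have qbc := C {b, c} (by intro x; simp; rintro (rfl | rfl) <;> assumption) r
      have qabc := C {a, b, c} (by intro x; simp; rintro (rfl | rfl | rfl) <;> assumption) r
      have hx : a ∉ ({b, c} : Finset ℂ) := by simp [hab, hac]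
      simp only [mom_pl hS, sum_empty, sum_singleton, sum_pair hab, sum_pair hac, sum_pair hbc,
        sum_insert hx, add_zero] at q0 qa qb qc qab qac qbc qabc
      have fa : e1 p r a = a - p := by simp [e1, hrad a ha]
      have fb : e1 p r b = b - p := by simp [e1, hrad b hb]
      have fc : e1 p r c = c - p := by simp [e1, hrad c hc]
      have ga : e2 p r a = (a - p) ^ 2 := by simp [e2, hrad a ha]
      have gb : e2 p r b = (b - p) ^ 2 := by simp [e2, hrad b hb]
      have gc : e2 p r c = (c - p) ^ 2 := by simp [e2, hrad c hc]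
      rw [fa, ga] at qa
      rw [fb, gb] at qb
      rw [fc, gc] at qc
      rw [fa, fb, ga, gb] at qab
      rw [fa, fc, ga, gc] at qac
      rw [fb, fc, gb, gc] at qbc
      rw [fa, fb, fc, ga, gb, gc] at qabc
      set x := a - p with hxd
      set y := b - p with hyd
      set z := c - p with hzd
      have sx : x * conj x = (r : ℂ) ^ 2 := by
        rw [Complex.mul_conj, Complex.normSq_eq_norm_sq, hrad a ha]; push_cast; ring
      have sy : y * conj y = (r : ℂ) ^ 2 := by
        rw [Complex.mul_conj, Complex.normSq_eq_norm_sq, hrad b hb]; push_cast; ring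
      have sz : z * conj z = (r : ℂ) ^ 2 := by
        rw [Complex.mul_conj, Complex.normSq_eq_norm_sq, hrad c hc]; push_cast; ring
      simp only [map_add, map_pow] at q0 qa qb qc qab qac qbc qabc
      have E : x ^ 2 * conj y * conj z + y ^ 2 * conj x * conj z + z ^ 2 * conj x * conj y
          - (conj x ^ 2 * y * z + conj y ^ 2 * x * z + conj z ^ 2 * x * y) = 0 := by
        linear_combination (qabc - qab - qac - qbc + qa + qb + qc - q0) / 2
      have hr0 : (r : ℂ) ≠ 0 := by
        intro h0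
        rw [h0] at sx
        have : x = 0 := by
          rcases mul_eq_zero.1 (sx.trans (by ring)) with h | h
          · exact h
          · simpa using h
        exact hne a ha this
      have hx0 : x ≠ 0 := hne a ha
      have cx : conj x = (r : ℂ) ^ 2 / x := by field_simp; linear_combination sx
      have cy : conj y = (r : ℂ) ^ 2 / y := by
        have := hne b hb
        rw [← hyd] at this
        field_simp; linear_combination sy
      have cz : conj z = (r : ℂ) ^ 2 / z := by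
        have := hne c hc
        rw [← hzd] at this
        field_simp; linear_combination sz
      have hy0 : y ≠ 0 := hne b hb
      have hz0 : z ≠ 0 := hne c hc
      have key : (r : ℂ) ^ 4 * ((x ^ 2 - y * z) * (y ^ 2 - x * z) * (z ^ 2 - x * y)) = 0 := by
        have h5 : (r : ℂ) ^ 4 * ((x ^ 2 - y * z) * (y ^ 2 - x * z) * (z ^ 2 - x * y))
            = x ^ 2 * y ^ 2 * z ^ 2 * (x ^ 2 * conj y * conj z + y ^ 2 * conj x * conj z
              + z ^ 2 * conj x * conj y
              - (conj x ^ 2 * y * z + conj y ^ 2 * x * z + conj z ^ 2 * x * y)) := by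
          rw [cx, cy, cz]
          field_simp
          ring
        rw [h5, E, mul_zero]
      exact (mul_eq_zero.1 key).resolve_left (pow_ne_zero 4 hr0)
    -- counting
    obtain ⟨a, b, ha, hb, hab⟩ : ∃ a b, a ∈ V ∧ b ∈ V ∧ a ≠ b := by
      obtain ⟨a, ha, b, hb, hab⟩ := one_lt_card.1 (by omega : 1 < V.card)
      exact ⟨a, b, ha, hb, hab⟩
    obtain ⟨s, hs2⟩ := IsAlgClosed.exists_pow_nat_eq ((a - p) * (b - p)) (n := 2) (by norm_num)
    have hsub : V ⊆ {a, b, p + (a - p) ^ 2 / (b - p), p + (b - p) ^ 2 / (a - p), p + s, p - s} := by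
      intro c hc
      simp only [mem_insert, mem_singleton]
      by_cases hca : c = a
      · left; exact hca
      by_cases hcb : c = b
      · right; left; exact hcb
      have hb0 := hne b hb
      have ha0 := hne a ha
      rcases mul_eq_zero.1 (iso a ha b hb c hc hab (Ne.symm hca) (Ne.symm hcb)) with h3 | h3
      · rcases mul_eq_zero.1 h3 with h3 | h3
        · right; right; left
          field_simp
          linear_combination -h3
        · right; right; right; left
          field_simp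
          linear_combination -h3
      · right; right; right; right
        have h4 : (c - p - s) * (c - p + s) = 0 := by linear_combination h3 - hs2
        rcases mul_eq_zero.1 h4 with h5 | h5
        · left; linear_combination h5
        · right; linear_combination h5
    have hc6 := card_le_card hsub
    have : #({a, b, p + (a - p) ^ 2 / (b - p), p + (b - p) ^ 2 / (a - p), p + s, p - s} : Finset ℂ)
        ≤ 6 := card_le_six
    omega

end Pool.Agent.V11293.EXU
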