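import Pool.Agent.V11293.EXU.Alpha

namespace Pool.Agent.V11293.EXU

open Finset ComplexConjugate Pool.Agent.V11293.EXT

theorem iso_of_isometry {g : Equiv.Perm ℂ} (hg : Isometry g) : Iso g := by
  let e : ℂ ≃ᵢ ℂ := ⟨g, hg⟩
  have hag : ∀ x, e.toRealLinearIsometryEquiv x = g x - g 0 :=
    fun x => e.toRealLinearIsometryEquiv_apply x
  obtain ⟨a, h | h⟩ := linear_isometry_complex e.toRealLinearIsometryEquiv
  · left
    refine ⟨a, g 0, Circle.norm_coe a, fun z => ?_⟩
    have h1 := hag z
    rw [h] at h1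
    simp only [rotation_apply] at h1
    rw [h1]; ring
  · right
    refine ⟨a, g 0, Circle.norm_coe a, fun z => ?_⟩
    have h1 := hag z
    rw [h] at h1
    simp only [LinearIsometryEquiv.trans_apply, Complex.conjLIE_apply, rotation_apply] at h1
    rw [h1]; ring

theorem ind_ne_one {κ : Equiv.Perm ℂ} (h : Ind κ) : κ ≠ 1 := by
  rintro rfl
  obtain ⟨a, t, ha, h⟩ := h
  have h0 := h 0
  have h1 := h 1
  have h2 := h Complex.I
  simp only [Equiv.Perm.one_apply, map_zero, map_one, Complex.conj_I] at h0 h1 h2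
  have ht : t = 0 := by linear_combination -h0
  have ha1 : a = 1 := by linear_combination -h1 - ht
  rw [ha1, ht] at h2
  have : (2 : ℂ) * Complex.I = 0 := by linear_combination h2
  simp [Complex.I_ne_zero] at this

theorem isometry_of_ind {κ : Equiv.Perm ℂ} (h : Ind κ) : Isometry κ := by
  apply Isometry.of_dist_eq
  intro x y
  rw [dist_eq_norm, dist_eq_norm]
  exact Iso.norm (Or.inr h) x y

/-- reflection in the line through two points -/
theorem exists_refl {x y : ℂ} (hxy : x ≠ y) : ∃ κ, Ind κ ∧ κ x = x ∧ κ y = y := by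
  have hd : x - y ≠ 0 := sub_ne_zero.2 hxy
  have hcd : conj (x - y) ≠ 0 := (map_ne_zero _).2 hd
  set a := (x - y) / conj (x - y) with ha
  have han : ‖a‖ = 1 := by
    rw [ha, norm_div, Complex.norm_conj, div_self (norm_ne_zero_iff.2 hd)]
  have haa := unit_mul_conj han
  have hax : a * conj (x - y) = x - y := by rw [ha]; field_simp
  let κ : Equiv.Perm ℂ :=
    { toFun := fun z => a * conj z + (x - a * conj x)
      invFun := fun z => a * conj z + (x - a * conj x)
      left_inv := by
        intro z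
        simp only [map_add, map_mul, map_sub, Complex.conj_conj]
        linear_combination (z - x) * haa
      right_inv := by
        intro z
        simp only [map_add, map_mul, map_sub, Complex.conj_conj]
        linear_combination (z - x) * haa }
  refine ⟨κ, ⟨a, x - a * conj x, han, fun z => rfl⟩, ?_, ?_⟩
  · show a * conj x + (x - a * conj x) = x
    ring
  · show a * conj y + (x - a * conj x) = y
    rw [map_sub] at hax
    linear_combination -hax

abbrev Pl : Type := EuclideanSpace ℝ (Fin 2)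

noncomputable def φ : Pl ≃ᵢ ℂ := (Complex.orthonormalBasisOneI.repr.symm).toIsometryEquiv

/-- transport to the complex plane -/
noncomputable def tc (g : Equiv.Perm Pl) : Equiv.Perm ℂ := (φ.symm.toEquiv.trans g).trans φ.toEquiv

theorem tc_apply (g : Equiv.Perm Pl) (z : ℂ) : tc g z = φ (g (φ.symm z)) := rfl

noncomputable def fc (g : Equiv.Perm ℂ) : Equiv.Perm Pl := (φ.toEquiv.trans g).trans φ.symm.toEquiv

theorem fc_apply (g : Equiv.Perm ℂ) (v : Pl) : fc g v = φ.symm (g (φ v)) := rfl

theorem tc_iso {g : Equiv.Perm Pl} (hg : Isometry g) : Iso (tc g) :=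
  iso_of_isometry (φ.isometry.comp (hg.comp φ.symm.isometry))

theorem tc_ne {g : Equiv.Perm Pl} (hg : g ≠ 1) : tc g ≠ 1 := by
  intro h
  apply hg
  apply Equiv.ext
  intro v
  have := congrArg (fun q : Equiv.Perm ℂ => q (φ v)) h
  simp only [tc_apply, IsometryEquiv.symm_apply_apply, Equiv.Perm.one_apply] at this
  exact φ.injective this

theorem upper_core (W : Set Pl)
    (hadm : ∀ g : Equiv.Perm Pl, Isometry g → (∀ w ∈ W, g w = w) → g = 1)
    (hW : (19 : ℕ∞) ≤ W.encard) (c : {x // x ∉ W} → Fin 2) :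
    ∃ c' : Pl → Fin 2, (∀ x : {x // x ∉ W}, c' x = c x) ∧
      ∀ g : Equiv.Perm Pl, Isometry g → (∀ x, c' (g x) = c' x) → g = 1 := by
  classical
  by_contra hcon
  push Not at hcon
  -- a finite admissible subset
  have hadmC : ∀ κ : Equiv.Perm ℂ, Ind κ → ∃ w ∈ W, κ (φ w) ≠ φ w := by
    intro κ hκ
    by_contra h
    push Not at h
    have h1 := hadm (fc κ) (φ.symm.isometry.comp ((isometry_of_ind hκ).comp φ.isometry)) (by
      intro w hw
      rw [fc_apply, h w hw, IsometryEquiv.symm_apply_apply])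
    apply ind_ne_one hκ
    apply Equiv.ext
    intro z
    have := congrArg (fun q : Equiv.Perm Pl => q (φ.symm z)) h1
    simp only [fc_apply, IsometryEquiv.apply_symm_apply, Equiv.Perm.one_apply] at this
    exact φ.symm.injective this
  obtain ⟨V, hVW, hV⟩ := Set.exists_subset_encard_eq hW
  have hVfin : V.Finite := by
    apply Set.finite_of_encard_eq_coe (k := 19)
    rw [hV]; rfl
  have hV19 : hVfin.toFinset.card = 19 := by
    have h1 := hVfin.encard_eq_coe_toFinset_card
    rw [hV] at h1
    exact_mod_cast h1.symm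
  obtain ⟨x, hx, y, hy, hxy⟩ := one_lt_card.1 (by omega : 1 < hVfin.toFinset.card)
  rw [Set.Finite.mem_toFinset] at hx hy
  obtain ⟨κ₀, hκ₀, hκx, hκy⟩ := exists_refl (x := φ x) (y := φ y) (fun h => hxy (φ.injective h))
  obtain ⟨w₀, hw₀, hne₀⟩ := hadmC κ₀ hκ₀
  set Wf : Finset ℂ := (insert w₀ hVfin.toFinset).image φ with hWf
  have hWfW : ∀ z ∈ Wf, φ.symm z ∈ W := by
    intro z hz
    rw [hWf, mem_image] at hz
    obtain ⟨v, hv, rfl⟩ := hz
    rw [IsometryEquiv.symm_apply_apply]
    rcases mem_insert.1 hv with h | h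
    · rw [h]; exact hw₀
    · exact hVW (by rwa [Set.Finite.mem_toFinset] at h)
  have hcard : 19 ≤ Wf.card := by
    rw [hWf, card_image_of_injective _ φ.injective]
    have := card_le_card (subset_insert w₀ hVfin.toFinset)
    omega
  have hadmF : ∀ κ, Ind κ → ∃ w ∈ Wf, κ w ≠ w := by
    intro κ hκ
    by_contra h
    push Not at h
    have mx : φ x ∈ Wf := by
      rw [hWf]; exact mem_image_of_mem _ (mem_insert_of_mem (by rwa [Set.Finite.mem_toFinset]))
    have my : φ y ∈ Wf := by
      rw [hWf]; exact mem_image_of_mem _ (mem_insert_of_mem (by rwa [Set.Finite.mem_toFinset]))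
    have mw : φ w₀ ∈ Wf := by
      rw [hWf]; exact mem_image_of_mem _ (mem_insert_self _ _)
    have : κ = κ₀ := hκ.eq hκ₀ (fun h => hxy (φ.injective h)) (by rw [h _ mx, hκx])
      (by rw [h _ my, hκy])
    rw [← this] at hne₀
    exact hne₀ (h _ mw)
  set f : ℂ → ℤ := fun z => if h : φ.symm z ∉ W then ((c ⟨φ.symm z, h⟩ : Fin 2) : ℤ) else 0
    with hf
  have hex : ∀ X : Finset ℂ, ∃ G : Equiv.Perm ℂ, X ⊆ Wf →
      (Iso G ∧ G ≠ 1 ∧ ∀ z, pl f X (G z) = pl f X z) := by
    intro X
    by_cases hX : X ⊆ Wf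
    swap
    · exact ⟨1, fun h => absurd h hX⟩
    set c' : Pl → Fin 2 := fun v => if h : v ∉ W then c ⟨v, h⟩ else if φ v ∈ X then 1 else 0
      with hc'
    have hval : ∀ v, ((c' v : Fin 2) : ℤ) = pl f X (φ v) := by
      intro v
      unfold pl
      simp only [hc', hf, IsometryEquiv.symm_apply_apply]
      by_cases h : v ∈ W
      · simp only [h, not_true_eq_false, dite_false]
        split_ifs <;> simp
      · have h2 : φ v ∉ X := by
          intro h3
          have := hWfW _ (hX h3)
          rw [IsometryEquiv.symm_apply_apply] at this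
          exact h this
        simp [h, h2]
    obtain ⟨g, hg, hgc, hg1⟩ := hcon c' (fun x => by simp [hc', x.2])
    refine ⟨tc g, fun _ => ⟨tc_iso hg, tc_ne hg1, fun z => ?_⟩⟩
    have h2 := hgc (φ.symm z)
    have h3 : tc g z = φ (g (φ.symm z)) := rfl
    rw [h3, ← hval, h2, hval, IsometryEquiv.apply_symm_apply]
  choose G hG using hex
  exact core19 (f := f) (W := Wf) (g := G)
    ⟨fun X hX => (hG X hX).1, fun X hX => (hG X hX).2.1, fun X hX => (hG X hX).2.2⟩ hadmF hcard

end Pool.Agent.V11293.EXU
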