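import Pool.Agent.V11293.EXU.Ends2

namespace Pool.Agent.V11293.EXU

open Finset ComplexConjugate Pool.Agent.V11293.EXT Filter

/-- Flip data: `b` is `γ₀`-symmetric, `b + 1_w` is `γ`-symmetric, both invert `k`. -/
structure Flip (b : ℂ → ℤ) (k γ₀ γ : Equiv.Perm ℂ) (w : ℂ) : Prop where
  sym0 : ∀ z, b (γ₀ z) = b z
  sym : ∀ z, pl b {w} (γ z) = pl b {w} z
  s0 : k * γ₀ = γ₀ * k⁻¹
  s : k * γ = γ * k⁻¹
  f0 : ∀ z, k z = z → γ₀ z = z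
  f : ∀ z, k z = z → γ z = z
  wU : w ∈ U b k

theorem Flip.comm {b : ℂ → ℤ} {k γ₀ γ : Equiv.Perm ℂ} {w : ℂ} (h : Flip b k γ₀ γ w) :
    k * (γ₀⁻¹ * γ) = (γ₀⁻¹ * γ) * k := by
  have h1 : k * γ₀⁻¹ = γ₀⁻¹ * k⁻¹ := by
    rw [mul_inv_eq_iff_eq_mul, mul_assoc, eq_inv_mul_iff_mul_eq]
    have := h.s0
    calc γ₀ * k = γ₀ * (k⁻¹)⁻¹ := by rw [inv_inv]
      _ = k⁻¹ * γ₀ := by
        rw [mul_inv_eq_iff_eq_mul, mul_assoc, ← this, ← mul_assoc, inv_mul_cancel, one_mul]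
  have h2 : k⁻¹ * γ = γ * k := by
    rw [inv_mul_eq_iff_eq_mul, ← mul_assoc, h.s, mul_assoc, inv_mul_cancel, mul_one]
  rw [← mul_assoc, h1, mul_assoc, h2, mul_assoc]

theorem Flip.J {b : ℂ → ℤ} {k γ₀ γ : Equiv.Perm ℂ} {w : ℂ} (h : Flip b k γ₀ γ w) (z : ℂ) :
    b z - b ((γ₀⁻¹ * γ) z) = (if γ z = w then 1 else 0) - (if z = w then 1 else 0) := by
  have h1 := h.sym z
  have h2 : b ((γ₀⁻¹ * γ) z) = b (γ z) := by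
    rw [Equiv.Perm.mul_apply, ← h.sym0 (γ₀⁻¹ (γ z)), aiv]
  unfold pl at h1
  simp only [mem_singleton] at h1
  rw [h2]
  linarith

theorem Flip.tele {b : ℂ → ℤ} {k γ₀ γ : Equiv.Perm ℂ} {w : ℂ} (h : Flip b k γ₀ γ w) (n : ℕ)
    (z : ℂ) : b z - b (((γ₀⁻¹ * γ) ^ n) z) = ∑ i ∈ range n,
      ((if γ (((γ₀⁻¹ * γ) ^ i) z) = w then (1 : ℤ) else 0)
        - (if ((γ₀⁻¹ * γ) ^ i) z = w then 1 else 0)) := by
  induction n with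
  | zero => simp
  | succ n ih =>
    rw [sum_range_succ, ← ih, ← h.J, pow_succ' (γ₀⁻¹ * γ) n]
    rw [Equiv.Perm.mul_apply (γ₀⁻¹ * γ) ((γ₀⁻¹ * γ) ^ n)]
    ring

theorem Flip.fixr {b : ℂ → ℤ} {k γ₀ γ : Equiv.Perm ℂ} {w : ℂ} (h : Flip b k γ₀ γ w) {z : ℂ}
    (hz : k z = z) (n : ℕ) : ((γ₀⁻¹ * γ) ^ n) z = z := by
  apply pow_fix
  rw [Equiv.Perm.mul_apply, h.f z hz, Equiv.Perm.inv_eq_iff_eq]
  exact (h.f0 z hz).symm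

theorem Flip.alm {b : ℂ → ℤ} {k γ₀ γ : Equiv.Perm ℂ} {w : ℂ} (h : Flip b k γ₀ γ w) :
    Alm b (γ₀⁻¹ * γ) := by
  have h0 : Alm b γ₀ := Alm.of_sym (X := ∅) (by intro z; simpa [pl] using h.sym0 z)
  exact h0.inv.mul (Alm.of_sym h.sym)

theorem Flip.noreturn {b : ℂ → ℤ} {k γ₀ γ : Equiv.Perm ℂ} {w : ℂ} (h : Flip b k γ₀ γ w)
    (hA : Alm b k) (hF : Fr k) (i : ℕ) : γ (((γ₀⁻¹ * γ) ^ i) w) ≠ w := by
  intro hcon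
  apply h.wU
  have hcomm : k * (γ₀⁻¹ * γ) ^ i = (γ₀⁻¹ * γ) ^ i * k := (Commute.pow_right h.comm i)
  have hcomm' : k⁻¹ * (γ₀⁻¹ * γ) ^ i = (γ₀⁻¹ * γ) ^ i * k⁻¹ :=
    (Commute.inv_left (Commute.pow_right h.comm i))
  have hfix : k⁻¹ w = w → k w = w := by
    intro h1; rw [Equiv.Perm.inv_eq_iff_eq] at h1; exact h1.symm
  have e1 := L_conj hA hF hA.inv hF.inv (Alm.of_sym h.sym) h.s (z := ((γ₀⁻¹ * γ) ^ i) w) (by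
    intro h1
    rw [Equiv.Perm.inv_eq_iff_eq] at h1
    exact h.f _ h1.symm)
  have e2 := L_conj hA.inv hF.inv hA.inv hF.inv (h.alm.pow i) hcomm' (z := w) (by
    intro h1
    exact h.fixr (hfix h1) i)
  rw [hcon, e2] at e1
  exact e1

theorem Flip.down {b : ℂ → ℤ} {k γ₀ γ : Equiv.Perm ℂ} {w : ℂ} (h : Flip b k γ₀ γ w)
    (hA : Alm b k) (hF : Fr k) {n : ℕ} (hn : 0 < n) : b w - b (((γ₀⁻¹ * γ) ^ n) w) < 0 := by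
  rw [h.tele]
  have h1 : ∀ i ∈ range n, ((if γ (((γ₀⁻¹ * γ) ^ i) w) = w then (1 : ℤ) else 0)
      - (if ((γ₀⁻¹ * γ) ^ i) w = w then 1 else 0)) ≤ if i = 0 then -1 else 0 := by
    intro i _
    rw [if_neg (h.noreturn hA hF i)]
    by_cases hi : i = 0
    · subst hi; simp
    · rw [if_neg hi]; split_ifs <;> norm_num
  refine lt_of_le_of_lt (sum_le_sum h1) ?_
  rw [sum_ite_eq' (range n) 0]
  simp [hn]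

theorem Flip.exists_down {b : ℂ → ℤ} {k γ₀ γ : Equiv.Perm ℂ} {w z : ℂ} (h : Flip b k γ₀ γ w)
    {n : ℕ} (hz : b z - b (((γ₀⁻¹ * γ) ^ n) z) < 0) : ∃ i : ℕ, ((γ₀⁻¹ * γ) ^ i) z = w := by
  by_contra hcon
  push Not at hcon
  rw [h.tele] at hz
  have : 0 ≤ ∑ i ∈ range n, ((if γ (((γ₀⁻¹ * γ) ^ i) z) = w then (1 : ℤ) else 0)
      - (if ((γ₀⁻¹ * γ) ^ i) z = w then 1 else 0)) := by
    refine sum_nonneg fun i _ => ?_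
    rw [if_neg (hcon i)]
    split_ifs <;> simp
  linarith

theorem Flip.key {b : ℂ → ℤ} {k γ₀ γ₁ γ₂ : Equiv.Perm ℂ} {w₁ w₂ : ℂ} (h1 : Flip b k γ₀ γ₁ w₁)
    (h2 : Flip b k γ₀ γ₂ w₂) (hA : Alm b k) (hF : Fr k)
    (hcomm : Commute (γ₀⁻¹ * γ₁) (γ₀⁻¹ * γ₂)) {m₁ m₂ : ℕ} (hm1 : 0 < m₁) (hm2 : 0 < m₂)
    {n₁ n₂ : ℤ} (e1 : (γ₀⁻¹ * γ₁) ^ m₁ = k ^ n₁) (e2 : (γ₀⁻¹ * γ₂) ^ m₂ = k ^ n₂)
    (hn : 0 < n₁ * n₂) : w₁ = w₂ := by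
  set r₁ := γ₀⁻¹ * γ₁ with hr1
  set r₂ := γ₀⁻¹ * γ₂ with hr2
  have hpow : r₁ ^ (m₁ * n₂.natAbs) = r₂ ^ (m₂ * n₁.natAbs) := by
    rw [pow_mul, pow_mul, e1, e2, ← zpow_natCast, ← zpow_natCast, ← zpow_mul, ← zpow_mul]
    congr 1
    rcases pos_and_pos_or_neg_and_neg_of_mul_pos hn with ⟨ha, hb⟩ | ⟨ha, hb⟩
    · rw [Int.natAbs_of_nonneg ha.le, Int.natAbs_of_nonneg hb.le]; ring
    · rw [Int.ofNat_natAbs_of_nonpos ha.le, Int.ofNat_natAbs_of_nonpos hb.le]; ring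
  have hn1 : n₁ ≠ 0 := by rintro rfl; simp at hn
  have hn2 : n₂ ≠ 0 := by rintro rfl; simp at hn
  have p1 : 0 < m₁ * n₂.natAbs := Nat.mul_pos hm1 (Int.natAbs_pos.2 hn2)
  have p2 : 0 < m₂ * n₁.natAbs := Nat.mul_pos hm2 (Int.natAbs_pos.2 hn1)
  have d1 := h1.down hA hF p1
  have d2 := h2.down hA hF p2
  rw [← hr1, hpow] at d1
  rw [← hr2, ← hpow] at d2
  obtain ⟨i, hi⟩ := h1.exists_down d2
  obtain ⟨j, hj⟩ := h2.exists_down d1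
  rw [← hr1] at hi
  rw [← hr2] at hj
  have hs : (r₁ ^ i * r₂ ^ j) w₁ = w₁ := by rw [Equiv.Perm.mul_apply, hj, hi]
  have hcm : Commute (r₁ ^ i) (r₂ ^ j) := (hcomm.pow_left i).pow_right j
  have hpw : (r₁ ^ i * r₂ ^ j) ^ (m₁ * m₂) = k ^ (n₁ * i * m₂ + n₂ * j * m₁) := by
    rw [hcm.mul_pow, ← pow_mul, ← pow_mul]
    have q1 : r₁ ^ (i * (m₁ * m₂)) = k ^ (n₁ * i * m₂) := by
      rw [show i * (m₁ * m₂) = m₁ * (i * m₂) by ring, pow_mul, e1, ← zpow_natCast, ← zpow_mul]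
      congr 1; push_cast; ring
    have q2 : r₂ ^ (j * (m₁ * m₂)) = k ^ (n₂ * j * m₁) := by
      rw [show j * (m₁ * m₂) = m₂ * (j * m₁) by ring, pow_mul, e2, ← zpow_natCast, ← zpow_mul]
      congr 1; push_cast; ring
    rw [q1, q2, ← zpow_add]
  have hfix := pow_fix hs (m₁ * m₂)
  rw [hpw] at hfix
  have hz : n₁ * i * m₂ + n₂ * j * m₁ = 0 := by
    by_contra hne
    exact hF w₁ (U_moved hA hF h1.wU) _ hne hfix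
  have hi0 : i = 0 := by
    by_contra hi0
    have hip : (0 : ℤ) < i := by exact_mod_cast Nat.pos_of_ne_zero hi0
    have hm2' : (0 : ℤ) < m₂ := by exact_mod_cast hm2
    have hm1' : (0 : ℤ) < m₁ := by exact_mod_cast hm1
    have hj0 : (0 : ℤ) ≤ j := by positivity
    have h5 : 0 < n₁ * n₁ * i * m₂ := by
      have : 0 < n₁ * n₁ := mul_self_pos.2 hn1
      positivity
    have h6 : 0 ≤ n₁ * n₂ * j * m₁ := by positivity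
    have h7 : n₁ * n₁ * i * m₂ + n₁ * n₂ * j * m₁ = 0 := by
      calc _ = n₁ * (n₁ * i * m₂ + n₂ * j * m₁) := by ring
        _ = 0 := by rw [hz, mul_zero]
    linarith
  subst hi0
  simpa using hi.symm

theorem UBC {b : ℂ → ℤ} {k γ₀ γ₁ γ₂ γ₃ : Equiv.Perm ℂ} {w₁ w₂ w₃ : ℂ} (h1 : Flip b k γ₀ γ₁ w₁)
    (h2 : Flip b k γ₀ γ₂ w₂) (h3 : Flip b k γ₀ γ₃ w₃) (hA : Alm b k) (hF : Fr k)
    (hc12 : Commute (γ₀⁻¹ * γ₁) (γ₀⁻¹ * γ₂)) (hc23 : Commute (γ₀⁻¹ * γ₂) (γ₀⁻¹ * γ₃))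
    (hc13 : Commute (γ₀⁻¹ * γ₁) (γ₀⁻¹ * γ₃))
    (d1 : ∃ (m : ℕ) (n : ℤ), 0 < m ∧ (γ₀⁻¹ * γ₁) ^ m = k ^ n)
    (d2 : ∃ (m : ℕ) (n : ℤ), 0 < m ∧ (γ₀⁻¹ * γ₂) ^ m = k ^ n)
    (d3 : ∃ (m : ℕ) (n : ℤ), 0 < m ∧ (γ₀⁻¹ * γ₃) ^ m = k ^ n)
    (n12 : w₁ ≠ w₂) (n23 : w₂ ≠ w₃) (n13 : w₁ ≠ w₃) : False := by
  obtain ⟨m₁, a₁, hm1, e1⟩ := d1
  obtain ⟨m₂, a₂, hm2, e2⟩ := d2
  obtain ⟨m₃, a₃, hm3, e3⟩ := d3
  have nz : ∀ {γ : Equiv.Perm ℂ} {w : ℂ} {m : ℕ} {a : ℤ}, Flip b k γ₀ γ w → 0 < m →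
      (γ₀⁻¹ * γ) ^ m = k ^ a → a ≠ 0 := by
    intro γ w m a h hm e ha
    have := h.down hA hF hm
    rw [e, ha] at this
    simp at this
  have z1 := nz h1 hm1 e1
  have z2 := nz h2 hm2 e2
  have z3 := nz h3 hm3 e3
  by_cases c12 : 0 < a₁ * a₂
  · exact n12 (h1.key h2 hA hF hc12 hm1 hm2 e1 e2 c12)
  by_cases c23 : 0 < a₂ * a₃
  · exact n23 (h2.key h3 hA hF hc23 hm2 hm3 e2 e3 c23)
  have d1 : a₁ * a₂ < 0 := lt_of_le_of_ne (not_lt.1 c12) (mul_ne_zero z1 z2)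
  have d2 : a₂ * a₃ < 0 := lt_of_le_of_ne (not_lt.1 c23) (mul_ne_zero z2 z3)
  have c13 : 0 < a₁ * a₃ := by
    have h4 : 0 < (a₁ * a₂) * (a₂ * a₃) := mul_pos_of_neg_of_neg d1 d2
    have h5 : (a₁ * a₂) * (a₂ * a₃) = (a₂ * a₂) * (a₁ * a₃) := by ring
    rw [h5] at h4
    exact (mul_pos_iff_of_pos_left (mul_self_pos.2 z2)).1 h4
  exact n13 (h1.key h3 hA hF hc13 hm1 hm3 e1 e3 c13)

end Pool.Agent.V11293.EXU
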